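import Pool.Agent.Y645.PK.Rel

/-!
The residue class (helper file for Pink's conjecture for random pull-backs).
-/

set_option autoImplicit false

open MvPolynomial

namespace Pool.Agent.Y645.PK

open Pool.Agent.W282.ZP Pool.Agent.W466.EP Pool.Agent.TH971.RF

/-- integers prime to `p` are units -/
theorem int_unit {V : ValuationSubring ℂ} {p : ℕ} (hp : p.Prime) (hV : V.valuation (p : ℂ) < 1)
    {z : ℤ} (hz : ¬ (p : ℤ) ∣ z) : V.valuation (z : ℂ) = 1 := by
  have h1 : IsCoprime (p : ℤ) z := (Prime.coprime_iff_not_dvd (Nat.prime_iff_prime_int.1 hp)).2 hz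
  obtain ⟨a, b, hab⟩ := h1
  refine le_antisymm (Pool.Agent.TH971.SP.int_le V z) ?_
  by_contra hcon
  push Not at hcon
  have h2 : (1 : ℂ) = (a : ℂ) * (p : ℂ) + (b : ℂ) * (z : ℂ) := by
    exact_mod_cast hab.symm
  have h3 : V.valuation (1 : ℂ) < 1 := by
    rw [h2]
    refine (Valuation.map_add _ _ _).trans_lt (max_lt ?_ ?_)
    · rw [map_mul]
      exact (mul_le_of_le_one_left' (Pool.Agent.TH971.SP.int_le V a)).trans_lt hV
    · rw [map_mul]
      exact (mul_le_of_le_one_left' (Pool.Agent.TH971.SP.int_le V b)).trans_lt hcon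
  rw [map_one] at h3
  exact lt_irrefl _ h3

/-- Numerators and denominators are not proportional at any point of the base. -/
theorem nondeg {r δ e R : ℕ} (hrR : r < R) {p : ℕ} (hp : p.Prime) (hpR : R < p)
    (V : ValuationSubring ℂ) (hV : V.valuation (p : ℂ) < 1)
    (cn cd : ∀ h : Fin (R + 1), (Fin r → Fin (δ + 2 * e * (h : ℕ) + 1)) → ℤ)
    (hn : ∀ h k, (p : ℤ) ∣ cn h k - pwc (fun _ => ((h : ℕ) : ℤ)) k)
    (hd : ∀ h k, (p : ℤ) ∣ cd h k - ((h : ℕ) : ℤ) * pwc (fun _ => ((h : ℕ) : ℤ)) k)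
    (y : Fin r → ℂ) (a b : ℂ) (hab : ∀ h, a * mev (cn h) y + b * mev (cd h) y = 0) :
    a = 0 ∧ b = 0 := by
  classical
  by_contra hcon
  set v := V.valuation with hv
  -- scaling
  obtain ⟨s, hsa, hsb, hs1⟩ : ∃ s : ℂ, v (s * a) ≤ 1 ∧ v (s * b) ≤ 1 ∧
      (v (s * a) = 1 ∨ v (s * b) = 1) := by
    rcases le_total (v a) (v b) with h | h
    · have hb : b ≠ 0 := by
        rintro rfl
        rw [map_zero, le_zero_iff, map_eq_zero] at h
        exact hcon ⟨h, rfl⟩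
      have hvb : v b ≠ 0 := (map_ne_zero v).2 hb
      refine ⟨b⁻¹, ?_, ?_, Or.inr ?_⟩
      · rw [map_mul, map_inv₀, mul_comm, ← div_eq_mul_inv]
        exact (div_le_one₀ (zero_lt_iff.2 hvb)).2 h
      · rw [inv_mul_cancel₀ hb, map_one]
      · rw [inv_mul_cancel₀ hb, map_one]
    · have ha : a ≠ 0 := by
        rintro rfl
        rw [map_zero, le_zero_iff, map_eq_zero] at h
        exact hcon ⟨rfl, h⟩
      have hva : v a ≠ 0 := (map_ne_zero v).2 ha
      refine ⟨a⁻¹, ?_, ?_, Or.inl ?_⟩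
      · rw [inv_mul_cancel₀ ha, map_one]
      · rw [map_mul, map_inv₀, mul_comm, ← div_eq_mul_inv]
        exact (div_le_one₀ (zero_lt_iff.2 hva)).2 h
      · rw [inv_mul_cancel₀ ha, map_one]
  set a' := s * a with ha'
  set b' := s * b with hb'
  have hab' : ∀ h, a' * mev (cn h) y + b' * mev (cd h) y = 0 := by
    intro h
    rw [ha', hb']
    linear_combination s * hab h
  obtain ⟨n, hn0, hn1, hny, hnk⟩ := exists_norm V y
  set C : ℂ := ∏ i, n i with hC
  -- differences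
  have hdiff : ∀ h h' : Fin (R + 1), h ≠ h' →
      v (((((h : ℕ) : ℤ) - ((h' : ℕ) : ℤ) : ℤ)) : ℂ) = 1 := by
    intro h h' hne
    refine int_unit hp hV fun hdvd => ?_
    have h1 := h.2
    have h2 := h'.2
    have h3 : (((h : ℕ) : ℤ) - ((h' : ℕ) : ℤ)) = 0 := by
      refine Int.eq_zero_of_abs_lt_dvd hdvd ?_
      rw [abs_lt]
      constructor <;> omega
    exact hne (Fin.ext (by omega))
  -- the killed indices
  let Ki : Finset (Fin (R + 1)) := Finset.univ.filter fun h =>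
    v (C * ∏ i, (y i - (((h : ℕ) : ℤ) : ℂ))) ≠ 1
  have hKi : ∀ h, h ∈ Ki → ∃ i, v (y i - (((h : ℕ) : ℤ) : ℂ)) < 1 := by
    intro h hh
    have h1 := (Finset.mem_filter.1 hh).2
    have h2 : ∃ i, v (n i * (y i - (((h : ℕ) : ℤ) : ℂ))) ≠ 1 := by
      by_contra hcon
      push Not at hcon
      apply h1
      rw [hC, ← Finset.prod_mul_distrib, map_prod]
      exact Finset.prod_eq_one fun i _ => hcon i
    obtain ⟨i, hi⟩ := h2
    exact ⟨i, hnk i _ hi⟩
  choose κ hκ using hKi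
  have hcard : Ki.card ≤ r := by
    have h1 : (Ki.attach.image fun h => κ h.1 h.2).card = Ki.card := by
      rw [Finset.card_image_of_injective, Finset.card_attach]
      intro h h' hh
      have h1 : κ h.1 h.2 = κ h'.1 h'.2 := hh
      by_contra hne
      have h2 := hκ h.1 h.2
      have h3 := hκ h'.1 h'.2
      rw [← h1] at h3
      exact (near_sub h2 h3).ne (hdiff h.1 h'.1 fun h4 => hne (Subtype.ext h4))
    rw [← h1]
    exact (Finset.card_le_univ _).trans (by rw [Fintype.card_fin])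
  have hun : ∀ h, h ∉ Ki → v (a' + b' * (((h : ℕ) : ℤ) : ℂ)) < 1 := by
    intro h hh
    have hμ : v (C * ∏ i, (y i - (((h : ℕ) : ℤ) : ℂ))) = 1 := by
      by_contra h1
      exact hh (Finset.mem_filter.2 ⟨Finset.mem_univ _, h1⟩)
    set U : ℂ := C * ∏ i, (y i - (((h : ℕ) : ℤ) : ℂ)) with hU
    set Dh : ℕ := δ + 2 * e * (h : ℕ) with hDh
    have e1 : v (C ^ Dh * mev (fun k => cn h k - pwc (fun _ => ((h : ℕ) : ℤ)) k) y) ≤
        v (((p : ℤ)) : ℂ) := mev_le hn1 hny (hn h)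
    have e2 : v (C ^ Dh * mev (fun k => cd h k - ((h : ℕ) : ℤ) *
        pwc (fun _ => ((h : ℕ) : ℤ)) k) y) ≤ v (((p : ℤ)) : ℂ) := mev_le hn1 hny (hd h)
    rw [mev_add, mev_pwc, Int.cast_natCast] at e1
    rw [mev_add, mev_mul, mev_pwc, Int.cast_natCast] at e2
    have h1 : (a' + b' * (((h : ℕ) : ℤ) : ℂ)) * U ^ Dh =
        -(a' * (C ^ Dh * (mev (cn h) y - (∏ i, (y i - (((h : ℕ) : ℤ) : ℂ))) ^ Dh)) +
          b' * (C ^ Dh * (mev (cd h) y - (((h : ℕ) : ℤ) : ℂ) *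
            (∏ i, (y i - (((h : ℕ) : ℤ) : ℂ))) ^ Dh))) := by
      rw [hU, mul_pow]
      linear_combination C ^ Dh * hab' h
    have h2 : v ((a' + b' * (((h : ℕ) : ℤ) : ℂ)) * U ^ Dh) < 1 := by
      rw [h1, Valuation.map_neg]
      refine (Valuation.map_add _ _ _).trans_lt (max_lt ?_ ?_)
      · rw [map_mul]
        exact (mul_le_of_le_one_left' hsa).trans_lt (lt_of_le_of_lt e1 hV)
      · rw [map_mul]
        exact (mul_le_of_le_one_left' hsb).trans_lt (lt_of_le_of_lt e2 hV)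
    rwa [map_mul, map_pow, hμ, one_pow, mul_one] at h2
  have htwo : 1 < Kiᶜ.card := by
    rw [Finset.card_compl, Fintype.card_fin]
    omega
  obtain ⟨h, hh, h', hh', hne⟩ := Finset.one_lt_card.1 htwo
  have h1 := hun h (Finset.mem_compl.1 hh)
  have h2 := hun h' (Finset.mem_compl.1 hh')
  have h3 : v b' < 1 := by
    have e1 : b' * ((((h : ℕ) : ℤ) - ((h' : ℕ) : ℤ) : ℤ) : ℂ) =
        (a' + b' * (((h : ℕ) : ℤ) : ℂ)) - (a' + b' * (((h' : ℕ) : ℤ) : ℂ)) := by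
      push_cast
      ring
    have e2 : v (b' * ((((h : ℕ) : ℤ) - ((h' : ℕ) : ℤ) : ℤ) : ℂ)) < 1 := by
      rw [e1]
      exact (Valuation.map_sub _ _ _).trans_lt (max_lt h1 h2)
    rwa [map_mul, hdiff h h' hne, mul_one] at e2
  have h4 : v a' < 1 := by
    have e1 : a' = (a' + b' * (((h : ℕ) : ℤ) : ℂ)) - b' * (((h : ℕ) : ℤ) : ℂ) := by ring
    rw [e1]
    refine (Valuation.map_sub _ _ _).trans_lt (max_lt h1 ?_)
    rw [map_mul]
    exact (mul_le_of_le_one_right' (Pool.Agent.TH971.SP.int_le V _)).trans_lt h3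
  rcases hs1 with h5 | h5
  · exact h4.ne h5
  · exact h3.ne h5

theorem countable_adjoin (t : Finset ℂ) :
    Countable (IntermediateField.adjoin ℚ (Set.range ((↑) : t → ℂ))) := by
  rw [← Cardinal.mk_le_aleph0_iff]
  refine (IntermediateField.cardinalMk_adjoin_le _ _).trans ?_
  refine max_le (max_le Cardinal.mk_le_aleph0 ?_) le_rfl
  exact Cardinal.mk_le_aleph0

/-- targets at the main prime -/
def tg1 {r q R e : ℕ} {δ : Fin q → ℕ} (w : Fin r ⊕ Fin q → Fin (q + 3) → ℤ) (p : ℕ)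
    (x : IdxP r q R e δ) : ℤ :=
  tgL p (R + (x.1 : ℕ) + 1) (if x.2.1 = 0 then w (Sum.inr x.1) 0 else 1)
    (if x.2.1 = 0 then w (Sum.inr x.1) 1 else 1) (fun i => w (Sum.inl i) (ix x.1)) x.2.2.1 x.2.2.2

/-- targets at the second prime -/
def tg2 {r q R e : ℕ} {δ : Fin q → ℕ} (x : IdxP r q R e δ) : ℤ :=
  if x.2.1 = 0 then pwc (fun _ => ((x.2.2.1 : ℕ) : ℤ)) x.2.2.2
  else ((x.2.2.1 : ℕ) : ℤ) * pwc (fun _ => ((x.2.2.1 : ℕ) : ℤ)) x.2.2.2

/-- The residue class. -/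
theorem exists_classP {r q d e R : ℕ} (hR : q ≤ R) (hrR : r < R) (δ : Fin q → ℕ)
    (A B : MvPolynomial (Fin r) ℂ) (hAd : ∀ i, A.degreeOf i ≤ 4 * e)
    (hBd : ∀ i, B.degreeOf i ≤ 6 * e)
    (I : Ideal (MvPolynomial (Fin r ⊕ Fin q) ℂ)) [I.IsPrime]
    (hd : Algebra.trdeg ℂ (MvPolynomial (Fin r ⊕ Fin q) ℂ ⧸ I) = d)
    (Q₀ : ℕ) (hQ₀ : 0 < Q₀) (c₀ : IdxP r q R e δ → ℤ) :
    ∃ (K : IntermediateField ℚ ℂ) (Q : ℕ) (G : IdxP r q R e δ → ℤ), Countable K ∧ 0 < Q ∧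
      ∀ c : IdxP r q R e δ → ℤ, (∀ i, (Q : ℤ) ∣ c i - G i) → (∀ i, (Q₀ : ℤ) ∣ c i - c₀ i) ∧
        (∀ (y : Fin r → ℂ) (l : Fin q) (a b : ℂ), (∀ h : Fin (R + 1),
          a * mev (fun k => c ⟨l, 0, h, k⟩) y + b * mev (fun k => c ⟨l, 1, h, k⟩) y = 0) →
          a = 0 ∧ b = 0) ∧
        ∀ (y : Fin r → ℂ) (P : Fin q → (crv (eval y A) (eval y B)).Point),
          (∀ f ∈ I, homP c f y P = 0) →
          ∀ (E : EndRing (eval y A) (eval y B)) (Λ : Submodule E.O (Fin q → E.O)),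
          (∀ a ∈ Λ, ∃ t : ℕ, 0 < t ∧ t • ∑ l, E.act (a l) (P l) = 0) →
          ∀ T : Finset (Fin r ⊕ Fin q), (∀ l, Sum.inr l ∈ T → nd c 1 l y (P l) ≠ 0) →
            AlgebraicIndependent K (fun j : T => cz c y P j) →
            T.card + Module.finrank E.O Λ ≤ d := by
  classical
  obtain ⟨f, w, hw, hcor⟩ := exists_grid (Fin (q + 3)) I hd
  let s : Finset ℂ := (Finset.univ.biUnion fun J : Finset (Fin r ⊕ Fin q) =>
      (f J).support.image (f J).coeff) ∪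
    (Finset.univ.biUnion fun J : Finset (Fin r ⊕ Fin q) =>
      Finset.univ.image fun c : Fin r ⊕ Fin q → Fin (q + 3) =>
      MvPolynomial.eval (fun i : J => ((w i (c i) : ℤ) : ℂ)) (f J)) ∪
    (A.support.image A.coeff ∪ B.support.image B.coeff) ∪
    Finset.univ.image fun x : (Fin r ⊕ Fin q) × Fin (q + 3) × Fin (q + 3) =>
      (((w x.1 x.2.1 - w x.1 x.2.2 : ℤ)) : ℂ)
  obtain ⟨t, htau, halg⟩ := Pool.Agent.TH971.SP.exists_tau s
  set τ : t → ℂ := ((↑) : t → ℂ) with hτ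
  obtain ⟨D₀, hD₀, hunit⟩ := Pool.Agent.TH971.SP.const_unit (τ := τ) s halg
  obtain ⟨p, hpge, hp⟩ := Nat.exists_infinite_primes (D₀ + Q₀ + R + 1)
  obtain ⟨p', hpge', hp'⟩ := Nat.exists_infinite_primes (p + 1)
  let K : ℕ := 2 * R + 1
  obtain ⟨Q, G, hQ, hclass⟩ := exists_residue_class' (κ := IdxP r q R e δ) (M := 2) ![p, p']
    (by
      intro m
      fin_cases m
      · exact hp
      · exact hp')
    (by
      intro m m' h
      fin_cases m <;> fin_cases m'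
      · rfl
      · change p = p' at h
        omega
      · change p' = p at h
        omega
      · rfl)
    ![fun _ => K, fun _ => 1] ![tg1 w p, tg2] Q₀ hQ₀
    (by
      intro m
      fin_cases m
      · change Q₀ < p
        omega
      · change Q₀ < p'
        omega) c₀
  have hpD : ¬ p ∣ D₀ := fun h => by
    have := Nat.le_of_dvd hD₀ h
    omega
  have hdiffs : ∀ i k k', (((w i k - w i k' : ℤ)) : ℂ) ∈ s := fun i k k' =>
    Finset.mem_union_right _ (Finset.mem_image_of_mem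
      (fun x : (Fin r ⊕ Fin q) × Fin (q + 3) × Fin (q + 3) =>
        (((w x.1 x.2.1 - w x.1 x.2.2 : ℤ)) : ℂ)) (Finset.mem_univ (i, k, k')))
  have hAs : ∀ k, A.coeff k ≠ 0 → A.coeff k ∈ s := fun k h0 => Finset.mem_union_left _
    (Finset.mem_union_right _ (Finset.mem_union_left _ (Finset.mem_image_of_mem _
      (MvPolynomial.mem_support_iff.2 h0))))
  have hBs : ∀ k, B.coeff k ≠ 0 → B.coeff k ∈ s := fun k h0 => Finset.mem_union_left _
    (Finset.mem_union_right _ (Finset.mem_union_right _ (Finset.mem_image_of_mem _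
      (MvPolynomial.mem_support_iff.2 h0))))
  have hfs : ∀ (J : Finset (Fin r ⊕ Fin q)) k, (f J).coeff k ≠ 0 → (f J).coeff k ∈ s :=
    fun J k h0 => Finset.mem_union_left _ (Finset.mem_union_left _ (Finset.mem_union_left _
      (Finset.mem_biUnion.2 ⟨J, Finset.mem_univ _, Finset.mem_image_of_mem _
        (MvPolynomial.mem_support_iff.2 h0)⟩)))
  have hcs : ∀ (J : Finset (Fin r ⊕ Fin q)) (c : Fin r ⊕ Fin q → Fin (q + 3)),
      MvPolynomial.eval (fun i : J => ((w i (c i) : ℤ) : ℂ)) (f J) ∈ s := fun J c =>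
    Finset.mem_union_left _ (Finset.mem_union_left _ (Finset.mem_union_right _
      (Finset.mem_biUnion.2 ⟨J, Finset.mem_univ _, Finset.mem_image_of_mem
        (fun c : Fin r ⊕ Fin q → Fin (q + 3) =>
          MvPolynomial.eval (fun i : J => ((w i (c i) : ℤ) : ℂ)) (f J))
        (Finset.mem_univ c)⟩)))
  refine ⟨IntermediateField.adjoin ℚ (Set.range τ), Q, G, countable_adjoin t, hQ,
    fun c hc => ?_⟩
  obtain ⟨hc0, hcm⟩ := hclass c hc
  refine ⟨hc0, ?_, ?_⟩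
  · -- the second prime
    intro y l a b hab
    obtain ⟨V, hV⟩ := Pool.Agent.TH971.SP.exists_good τ htau hp'
    refine nondeg hrR hp' (by omega) V hV.lt (fun (h : Fin (R + 1)) k => c ⟨l, 0, h, k⟩)
      (fun (h : Fin (R + 1)) k => c ⟨l, 1, h, k⟩) ?_ ?_ y a b hab
    · intro h k
      have h1 := hcm 1 ⟨l, 0, h, k⟩
      change (p' : ℤ) ^ 1 ∣ c ⟨l, 0, h, k⟩ - tg2 ⟨l, 0, h, k⟩ at h1
      rw [pow_one, tg2, if_pos rfl] at h1
      exact h1
    · intro h k
      have h1 := hcm 1 ⟨l, 1, h, k⟩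
      change (p' : ℤ) ^ 1 ∣ c ⟨l, 1, h, k⟩ - tg2 ⟨l, 1, h, k⟩ at h1
      rw [pow_one, tg2, if_neg (by simp)] at h1
      exact h1
  intro y P hz E Λ hΛ T hTd hT
  have hTτ : AlgebraicIndependent ℚ (Sum.elim (fun j : T => cz c y P j) τ) := by
    refine htau.sumElim_of_tower (S := IntermediateField.adjoin ℚ (Set.range τ)) ?_ hT
    rintro _ ⟨i, rfl⟩
    exact ⟨⟨τ i, IntermediateField.subset_adjoin _ _ ⟨i, rfl⟩⟩, rfl⟩
  obtain ⟨V, hV, hVx⟩ := exists_resid τ (fun j : T => cz c y P j) hTτ hp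
    (fun j : T => w j (Sum.elim (fun _ => 0) (fun _ => 2) (j : Fin r ⊕ Fin q)))
  have hle : ∀ a ∈ s, V.valuation a ≤ 1 := by
    intro a ha
    by_cases h0 : a = 0
    · rw [h0, map_zero]
      exact zero_le_one
    · exact (hunit p hpD V hV a ha h0).le
  refine one_place (K := K) hR (by omega) hp (by change 2 * R < 2 * R + 1; omega) V hV.hp hV.arch
    A B ?_ ?_ hAd hBd f w ?_ ?_ ?_ c ?_ y P (fun J hJ => hz _ (hcor J hJ).1) T ?_ ?_ E Λ hΛ
  · intro k
    by_cases h0 : A.coeff k = 0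
    · rw [h0, map_zero]
      exact zero_le_one
    · exact hle _ (hAs k h0)
  · intro k
    by_cases h0 : B.coeff k = 0
    · rw [h0, map_zero]
      exact zero_le_one
    · exact hle _ (hBs k h0)
  · intro J _ k
    by_cases h0 : (f J).coeff k = 0
    · rw [h0, map_zero]
      exact zero_le_one
    · exact hle _ (hfs J k h0)
  · intro J hJ c
    exact hunit p hpD V hV _ (hcs J c) ((hcor J hJ).2 c)
  · intro i k k' hne
    exact hunit p hpD V hV _ (hdiffs i k k') (by exact_mod_cast sub_ne_zero.2 (hw i k k' hne))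
  · intro l
    refine ⟨fun h k => ?_, fun h k => ?_⟩
    · have h1 := hcm 0 ⟨l, 0, h, k⟩
      change (p : ℤ) ^ K ∣ c ⟨l, 0, h, k⟩ - tg1 w p ⟨l, 0, h, k⟩ at h1
      rw [tg1, if_pos rfl, if_pos rfl] at h1
      exact h1
    · have h1 := hcm 0 ⟨l, 1, h, k⟩
      change (p : ℤ) ^ K ∣ c ⟨l, 1, h, k⟩ - tg1 w p ⟨l, 1, h, k⟩ at h1
      rw [tg1, if_neg (by simp), if_neg (by simp)] at h1
      exact h1
  · intro i hi
    exact hVx ⟨Sum.inl i, hi⟩
  · intro l hl
    exact ⟨hTd l hl, hVx ⟨Sum.inr l, hl⟩⟩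

end Pool.Agent.Y645.PK
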