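import Pool.Agent.Y645.PK.Cls
import Pool.Agent.TH971.RF.A4
import Pool.Agent.TH971.RF.B6

/-!
The coordinates of a point of the pull-back are algebraic over the field generated by its image
(helper file for Pink's conjecture for random pull-backs).
-/

set_option autoImplicit false

open MvPolynomial

namespace Pool.Agent.Y645.PK

open Pool.Agent.W282.ZP Pool.Agent.W466.EP Pool.Agent.TH971.RF

section matroid

variable (k : Type) [Field k] [Algebra k ℂ]

/-- An independent subfamily with as many elements as the rank allows. -/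
theorem exists_subK {ι : Type} [Fintype ι] (u : ι → ℂ) (a : ℕ)
    (h : (a : ℕ∞) ≤ (AlgebraicIndependent.matroid k ℂ).eRk (Set.range u)) :
    ∃ S : Finset ι, S.card = a ∧ AlgebraicIndependent k (fun b : S => u b) := by
  classical
  obtain ⟨I, hI1, hI2, hI3⟩ := Matroid.le_eRk_iff.1 h
  have hsurj : Set.SurjOn u (u ⁻¹' I) I := by
    intro x hx
    obtain ⟨b, rfl⟩ := hI1 hx
    exact ⟨b, hx, rfl⟩
  obtain ⟨t, ht, htb⟩ := hsurj.exists_bijOn_subset
  set S : Finset ι := t.toFinite.toFinset with hS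
  refine ⟨S, ?_, ?_⟩
  · have h1 : t.encard = I.encard := htb.injOn.encard_image.symm.trans (by rw [htb.image_eq])
    rw [hI3] at h1
    have h2 : ((S.card : ℕ) : ℕ∞) = (a : ℕ∞) := by
      rw [← h1, ← Set.encard_coe_eq_coe_finsetCard, hS, Set.Finite.coe_toFinset]
    exact_mod_cast h2
  · have h1 : AlgebraicIndependent k (fun x : I => (x : ℂ)) := hI2
    have hSt : ∀ b : S, (b : ι) ∈ t := fun b => (Set.Finite.mem_toFinset _).1 b.2
    let f : S → I := fun b => ⟨u b, htb.mapsTo (hSt b)⟩
    have hf : Function.Injective f := by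
      intro b b' hbb
      have h2 : u b = u b' := congrArg Subtype.val hbb
      exact Subtype.ext (htb.injOn (hSt b) (hSt b') h2)
    exact h1.comp f hf

theorem card_le_rkK {τ : Type} (T : Finset τ) (w : τ → ℂ)
    (hw : AlgebraicIndependent k (fun j : T => w j)) (X : Set ℂ)
    (hX : ∀ j ∈ T, w j ∈ (AlgebraicIndependent.matroid k ℂ).closure X) :
    (T.card : ℕ∞) ≤ (AlgebraicIndependent.matroid k ℂ).eRk X := by
  rw [← Matroid.eRk_closure_eq, Matroid.le_eRk_iff]
  refine ⟨Set.range fun j : T => w j, ?_, ?_, ?_⟩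
  · rintro _ ⟨j, rfl⟩
    exact hX j j.2
  · rw [AlgebraicIndependent.matroid_indep_iff]
    exact AlgebraicIndependent.coe_range hw
  · rw [← Set.image_univ, hw.injective.injOn.encard_image, Set.encard_univ]
    simp

end matroid

/-- A root of a polynomial equation is algebraic over the field generated by the coefficients. -/
theorem alg_root {k : Type*} [Field k] [Algebra k ℂ] {R : ℕ} (φ : Fin (R + 1) → ℂ)
    (F : IntermediateField k ℂ) (hφ : ∀ h, φ h ∈ F) (hne : ∃ h, φ h ≠ 0) {X : ℂ}
    (hX : ∑ h : Fin (R + 1), φ h * X ^ (R - (h : ℕ)) = 0) : IsAlgebraic F X := by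
  classical
  let g : Polynomial F := ∑ h : Fin (R + 1),
    Polynomial.C (⟨φ h, hφ h⟩ : F) * Polynomial.X ^ (R - (h : ℕ))
  refine ⟨g, ?_, ?_⟩
  · obtain ⟨h, hh⟩ := hne
    intro h0
    apply hh
    have h1 : g.coeff (R - (h : ℕ)) = ⟨φ h, hφ h⟩ := by
      change (∑ h : Fin (R + 1), Polynomial.C (⟨φ h, hφ h⟩ : F) *
        Polynomial.X ^ (R - (h : ℕ))).coeff (R - (h : ℕ)) = _
      rw [Polynomial.finsetSum_coeff, Finset.sum_eq_single h]
      · rw [Polynomial.coeff_C_mul_X_pow, if_pos rfl]
      · intro h' _ hne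
        rw [Polynomial.coeff_C_mul_X_pow, if_neg]
        intro h4
        apply hne
        apply Fin.ext
        have h5 := h.2
        have h6 := h'.2
        omega
      · intro h4
        exact absurd (Finset.mem_univ _) h4
    rw [h0, Polynomial.coeff_zero] at h1
    exact (congrArg Subtype.val h1).symm
  · change Polynomial.aeval X (∑ h : Fin (R + 1), Polynomial.C (⟨φ h, hφ h⟩ : F) *
        Polynomial.X ^ (R - (h : ℕ))) = 0
    rw [map_sum, ← hX]
    refine Finset.sum_congr rfl fun h _ => ?_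
    rw [map_mul, map_pow, Polynomial.aeval_X, Polynomial.aeval_C]
    rfl

/-- The coordinates `y_i` and `x(P_l)`. -/
noncomputable def coP {r q : ℕ} (y : Fin r → ℂ) {A B : ℂ} (P : Fin q → (crv A B).Point) :
    Fin r ⊕ Fin q → ℂ :=
  Sum.elim y (fun l => xx (P l))

/-- Algebraically independent coordinates of the image. -/
theorem transfer {r q R e : ℕ} {δ : Fin q → ℕ} (k : Type) [Field k] [Algebra k ℂ]
    (c : IdxP r q R e δ → ℤ) (y : Fin r → ℂ)
    (hc : ∀ (l : Fin q) (a b : ℂ), (∀ h : Fin (R + 1),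
      a * mev (fun k => c ⟨l, 0, h, k⟩) y + b * mev (fun k => c ⟨l, 1, h, k⟩) y = 0) →
      a = 0 ∧ b = 0)
    {A B : ℂ} (P : Fin q → (crv A B).Point) (T : Finset (Fin r ⊕ Fin q))
    (hT : AlgebraicIndependent k (fun j : T => coP y P j)) :
    ∃ T' : Finset (Fin r ⊕ Fin q), (∀ l, Sum.inr l ∈ T' → nd c 1 l y (P l) ≠ 0) ∧
      AlgebraicIndependent k (fun j : T' => cz c y P j) ∧ T'.card = T.card := by
  classical
  let A₀ : Set (Fin r ⊕ Fin q) := {j | ∀ l, j = Sum.inr l → nd c 1 l y (P l) ≠ 0}
  let u : A₀ → ℂ := fun j => cz c y P j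
  set X : Set ℂ := Set.range u with hX
  set F := IntermediateField.adjoin k X with hF
  have hyF : ∀ i, y i ∈ F := fun i => IntermediateField.subset_adjoin k X
    ⟨⟨Sum.inl i, fun l h => absurd h Sum.inl_ne_inr⟩, rfl⟩
  have hmF : ∀ {D : ℕ} (g : (Fin r → Fin (D + 1)) → ℤ), mev g y ∈ F := by
    intro D g
    rw [mev]
    refine sum_mem fun k _ => mul_mem (intCast_mem F _) (prod_mem fun i _ => pow_mem (hyF i) _)
  have hcl : ∀ j ∈ T, coP y P j ∈ (AlgebraicIndependent.matroid k ℂ).closure X := by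
    intro j _
    rw [mem_cl]
    rcases j with i | l
    · exact isAlgebraic_algebraMap (⟨y i, hyF i⟩ : F)
    · change IsAlgebraic F (xx (P l))
      by_cases hP : P l = 0
      · have h1 : xx (P l) = 0 := by
          rw [hP]
          rfl
        rw [h1]
        exact isAlgebraic_zero
      have hval : ∀ s : Fin 2, nd c s l y (P l) = ∑ h : Fin (R + 1),
          mev (fun k => c ⟨l, s, h, k⟩) y * xx (P l) ^ (R - (h : ℕ)) := by
        intro s
        rw [nd, val, if_neg hP]
      by_cases hd : nd c 1 l y (P l) = 0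
      · refine alg_root (fun h => mev (fun k => c ⟨l, 1, h, k⟩) y) F (fun h => hmF _) ?_ ?_
        · by_contra hcon
          push Not at hcon
          have := (hc l 0 1 fun h => by rw [hcon h, zero_mul, mul_zero, add_zero]).2
          exact one_ne_zero this
        · rw [← hval 1, hd]
      · set z : ℂ := nd c 0 l y (P l) / nd c 1 l y (P l) with hz
        have hzF : z ∈ F := IntermediateField.subset_adjoin k X
          ⟨⟨Sum.inr l, fun l' h => by rw [← Sum.inr_injective h]; exact hd⟩, rfl⟩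
        refine alg_root (fun h => mev (fun k => c ⟨l, 0, h, k⟩) y -
          z * mev (fun k => c ⟨l, 1, h, k⟩) y) F
          (fun h => sub_mem (hmF _) (mul_mem hzF (hmF _))) ?_ ?_
        · by_contra hcon
          push Not at hcon
          have := (hc l 1 (-z) fun h => by
            have h1 := hcon h
            linear_combination h1).1
          exact one_ne_zero this
        · have h1 : nd c 0 l y (P l) - z * nd c 1 l y (P l) = 0 := by
            rw [hz, div_mul_cancel₀ _ hd, sub_self]
          rw [hval 0, hval 1, Finset.mul_sum, ← Finset.sum_sub_distrib] at h1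
          rw [← h1]
          refine Finset.sum_congr rfl fun h _ => ?_
          ring
  have h1 := card_le_rkK k T (coP y P) hT X hcl
  obtain ⟨S, hS1, hS2⟩ := exists_subK k u T.card h1
  refine ⟨S.map (Function.Embedding.subtype _), ?_, ?_, ?_⟩
  · intro l hl
    obtain ⟨j, -, hj⟩ := Finset.mem_map.1 hl
    exact j.2 l hj
  · let e' : (S.map (Function.Embedding.subtype _) : Finset (Fin r ⊕ Fin q)) ≃ S :=
      { toFun := fun j => ⟨⟨j, by
          obtain ⟨t, ht, h⟩ := Finset.mem_map.1 j.2
          rw [← h]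
          exact t.2⟩, by
          obtain ⟨t, ht, h⟩ := Finset.mem_map.1 j.2
          have h2 : t = ⟨(j : Fin r ⊕ Fin q), by rw [← h]; exact t.2⟩ := Subtype.ext h
          rw [← h2]
          exact ht⟩
        invFun := fun j => ⟨(j : A₀), Finset.mem_map_of_mem _ j.2⟩
        left_inv := fun j => rfl
        right_inv := fun j => rfl }
    exact hS2.comp e' e'.injective
  · rw [Finset.card_map, hS1]

/-- Every point of `V` with a smooth fibre is the image of a point. -/
theorem exists_above {r q R e : ℕ} {δ : Fin q → ℕ} (hR0 : 0 < R) (c : IdxP r q R e δ → ℤ)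
    (y : Fin r → ℂ) {A B : ℂ} (hs : 4 * A ^ 3 + 27 * B ^ 2 ≠ 0) (l : Fin q) (s : ℂ × ℂ) :
    ∃ P : (crv A B).Point, s.2 * nd c 0 l y P = s.1 * nd c 1 l y P := by
  classical
  let φ : Fin (R + 1) → ℂ := fun h => s.2 * mev (fun k => c ⟨l, 0, h, k⟩) y -
    s.1 * mev (fun k => c ⟨l, 1, h, k⟩) y
  by_cases h0 : φ 0 = 0
  · refine ⟨0, ?_⟩
    rw [nd, nd, val, val, if_pos rfl, if_pos rfl]
    have h1 : s.2 * mev (fun k => c ⟨l, 0, 0, k⟩) y - s.1 * mev (fun k => c ⟨l, 1, 0, k⟩) y = 0 :=
      h0
    linear_combination h1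
  · obtain ⟨X, hX⟩ := exists_root hR0 φ h0
    obtain ⟨P, hP0, hPX⟩ := exists_point (X := X) hs
    refine ⟨P, ?_⟩
    rw [nd, nd, val, val, if_neg hP0, if_neg hP0, hPX, Finset.mul_sum, Finset.mul_sum,
      ← sub_eq_zero, ← Finset.sum_sub_distrib, ← hX]
    refine Finset.sum_congr rfl fun h _ => ?_
    change _ = (s.2 * mev (fun k => c ⟨l, 0, h, k⟩) y -
      s.1 * mev (fun k => c ⟨l, 1, h, k⟩) y) * X ^ (R - (h : ℕ))
    ring

end Pool.Agent.Y645.PK
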