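import Pool.Agent.W282.ZP.Choice2
import Pool.Agent.TH971.SP.A2

/-!
Relations between the coordinates which do not vanish at the points of a grid, and valuation rings
with prescribed residues (helper file for Pink's conjecture for random pull-backs).
-/

set_option autoImplicit false

open MvPolynomial

namespace Pool.Agent.Y645.PK

open Pool.Agent.W282.ZP

/-- For every set `J` of `d + 1` coordinates there is a relation `f J` between the coordinates in
`J`, and there are integers `a i k` such that `f J` does not vanish at the points of the grid. -/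
theorem exists_grid {ι : Type} [Fintype ι] (κ : Type) [Fintype κ] {d : ℕ}
    (P : Ideal (MvPolynomial ι ℂ)) [P.IsPrime]
    (hd : Algebra.trdeg ℂ (MvPolynomial ι ℂ ⧸ P) = d) :
    ∃ (f : ∀ J : Finset ι, MvPolynomial J ℂ) (a : ι → κ → ℤ),
      (∀ i k k', k ≠ k' → a i k ≠ a i k') ∧
      ∀ J : Finset ι, J.card = d + 1 → rename (Subtype.val : J → ι) (f J) ∈ P ∧
        ∀ c : ι → κ, eval (fun i : J => ((a i (c i) : ℤ) : ℂ)) (f J) ≠ 0 := by
  classical
  have h1 : ∀ J : Finset ι, ∃ f : MvPolynomial J ℂ, f ≠ 0 ∧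
      (J.card = d + 1 → rename (Subtype.val : J → ι) f ∈ P) := by
    intro J
    by_cases hJ : J.card = d + 1
    · have hdep : ¬ AlgebraicIndependent ℂ
          (fun i : J => (Ideal.Quotient.mk P (X (i : ι)) : MvPolynomial ι ℂ ⧸ P)) := by
        intro h
        have h2 := h.cardinalMk_le_trdeg
        rw [hd, Cardinal.mk_fintype, Fintype.card_coe, hJ] at h2
        have h3 : d + 1 ≤ d := by exact_mod_cast h2
        omega
      rw [algebraicIndependent_iff] at hdep
      push Not at hdep
      obtain ⟨f, hf1, hf2⟩ := hdep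
      refine ⟨f, hf2, fun _ => ?_⟩
      rw [← Ideal.Quotient.eq_zero_iff_mem, ← hf1]
      have h4 : (Ideal.Quotient.mkₐ ℂ P).comp (rename (Subtype.val : J → ι)) =
          aeval (fun i : J => (Ideal.Quotient.mk P (X (i : ι)))) := by
        ext i
        simp
      exact DFunLike.congr_fun h4 f
    · exact ⟨1, one_ne_zero, fun h => absurd h hJ⟩
  choose f hf0 hfP using h1
  let F : MvPolynomial (ι × κ) ℂ :=
    (∏ J : Finset ι, ∏ c : ι → κ, rename (fun i : J => ((i : ι), c i)) (f J)) *
      ∏ x : {x : ι × κ × κ // x.2.1 ≠ x.2.2}, (X (x.1.1, x.1.2.1) - X (x.1.1, x.1.2.2))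
  have hF : F ≠ 0 := by
    refine mul_ne_zero (Finset.prod_ne_zero_iff.2 fun J _ => Finset.prod_ne_zero_iff.2
      fun c _ => ?_) (Finset.prod_ne_zero_iff.2 fun x _ => ?_)
    · have hinj : Function.Injective (fun i : J => ((i : ι), c i)) := by
        intro i i' h
        exact Subtype.ext (congrArg Prod.fst h)
      intro h
      exact hf0 J (rename_injective _ hinj (by rw [h, map_zero]))
    · intro h
      rw [sub_eq_zero] at h
      have h2 : ((x.1.1, x.1.2.1) : ι × κ) = (x.1.1, x.1.2.2) := X_injective h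
      exact x.2 (congrArg Prod.snd h2)
  obtain ⟨a, ha⟩ : ∃ a : ι × κ → ℤ, eval (fun i => (a i : ℂ)) F ≠ 0 := by
    by_contra hcon
    push Not at hcon
    apply hF
    refine MvPolynomial.funext_set (fun _ => Set.range fun k : ℤ => (k : ℂ)) (fun _ => ?_) ?_
    · exact Set.infinite_range_of_injective Int.cast_injective
    · intro x hx
      rw [map_zero]
      have h2 : ∀ i, ∃ k : ℤ, (k : ℂ) = x i := fun i => hx i (Set.mem_univ i)
      choose k hk using h2
      have h3 : x = fun i => (k i : ℂ) := funext fun i => (hk i).symm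
      rw [h3]
      exact hcon k
  simp only [F, map_mul, map_prod, map_sub, eval_X] at ha
  have hA := left_ne_zero_of_mul ha
  have hB := right_ne_zero_of_mul ha
  rw [Finset.prod_ne_zero_iff] at hA hB
  refine ⟨f, fun i k => a (i, k), fun i k k' hne h => ?_, fun J hJ =>
    ⟨hfP J hJ, ?_⟩⟩
  · have h2 := hB ⟨(i, k, k'), hne⟩ (Finset.mem_univ _)
    have h' : a (i, k) = a (i, k') := h
    apply h2
    change ((a (i, k) : ℤ) : ℂ) - ((a (i, k') : ℤ) : ℂ) = 0
    rw [h', sub_self]
  intro c
  have h2 := hA J (Finset.mem_univ J)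
  rw [Finset.prod_ne_zero_iff] at h2
  have h3 := h2 c (Finset.mem_univ c)
  rw [eval_rename] at h3
  exact h3

/-- Valuation rings with prescribed residues. -/
theorem exists_resid {κ ι' : Type} (τ : κ → ℂ) (x : ι' → ℂ)
    (h : AlgebraicIndependent ℚ (Sum.elim x τ)) {p : ℕ} (hp : p.Prime) (γ : ι' → ℤ) :
    ∃ V : ValuationSubring ℂ, Pool.Agent.TH971.SP.Good τ p V ∧
      ∀ i, V.valuation (x i - (γ i : ℂ)) < 1 := by
  classical
  have hpQ : (p : ℚ) ≠ 0 := by exact_mod_cast hp.ne_zero
  have hpC : (p : ℂ) ≠ 0 := by exact_mod_cast hp.ne_zero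
  let g : ι' ⊕ κ → Polynomial ℚ :=
    Sum.elim (fun i => Polynomial.C ((p : ℚ)⁻¹) * Polynomial.X +
      Polynomial.C (-((p : ℚ)⁻¹ * (γ i : ℚ)))) (fun _ => Polynomial.X)
  have hg : ∀ i, Transcendental ℚ (g i) := by
    rintro (i | j)
    · refine Polynomial.transcendental _ ?_ ?_
      · change (Polynomial.C ((p : ℚ)⁻¹) * Polynomial.X +
          Polynomial.C (-((p : ℚ)⁻¹ * (γ i : ℚ)))).natDegree ≠ 0
        rw [Polynomial.natDegree_linear (inv_ne_zero hpQ)]
        exact one_ne_zero
      · exact mem_nonZeroDivisors_of_ne_zero (by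
          change (Polynomial.C ((p : ℚ)⁻¹) * Polynomial.X +
            Polynomial.C (-((p : ℚ)⁻¹ * (γ i : ℚ)))).leadingCoeff ≠ 0
          rw [Polynomial.leadingCoeff_linear (inv_ne_zero hpQ)]
          exact inv_ne_zero hpQ)
    · exact Polynomial.transcendental_X ℚ
  have h1 := h.polynomial_aeval_of_transcendental hg
  obtain ⟨V, hV⟩ := Pool.Agent.TH971.SP.exists_good _ h1 hp
  refine ⟨V, ⟨hV.hp, ?_, ?_, hV.arch⟩, ?_⟩
  · intro i
    have h2 := hV.mem (Sum.inr i)
    simpa [g] using h2
  · refine Pool.Agent.TH971.SP.gauss_comp (Sum.inr) Sum.inr_injective ?_ hV.gauss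
    intro i
    simp [g]
  · intro i
    have h2 := hV.mem (Sum.inl i)
    have h3 : Polynomial.aeval (Sum.elim x τ (Sum.inl i)) (g (Sum.inl i)) =
        (p : ℂ)⁻¹ * (x i - (γ i : ℂ)) := by
      simp only [g, Sum.elim_inl, map_add, map_mul, Polynomial.aeval_C, Polynomial.aeval_X]
      simp
      ring
    rw [h3] at h2
    have h4 := (V.valuation_le_one_iff _).2 h2
    have h5 : x i - (γ i : ℂ) = (p : ℂ) * ((p : ℂ)⁻¹ * (x i - (γ i : ℂ))) := by
      field_simp
    rw [h5, map_mul]
    exact (mul_le_of_le_one_right' h4).trans_lt hV.lt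

end Pool.Agent.Y645.PK
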