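import Pool.Agent.TH971.SP.A1
import Pool.Agent.TH971.RF.C3

/-!
Polynomials with bounded degrees in all variables and integral coefficients in prescribed residue
classes, and the dichotomy at one coordinate (helper file for Pink's conjecture for random
pull-backs).
-/

set_option autoImplicit false

open MvPolynomial

namespace Pool.Agent.Y645.PK

open Pool.Agent.W282.ZP Pool.Agent.W466.EP Pool.Agent.TH971.RF

/-- The value of the polynomial of degree at most `D` in each variable with coefficients `c`. -/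
noncomputable def mev {r D : ℕ} (c : (Fin r → Fin (D + 1)) → ℤ) (y : Fin r → ℂ) : ℂ :=
  ∑ k, (c k : ℂ) * ∏ i, y i ^ (k i : ℕ)

/-- The coefficients of `∏ (y_i - a_i) ^ D`. -/
def pwc {r D : ℕ} (a : Fin r → ℤ) (k : Fin r → Fin (D + 1)) : ℤ :=
  ∏ i, ((D.choose (k i : ℕ) : ℤ) * (-a i) ^ (D - (k i : ℕ)))

theorem mev_pwc {r D : ℕ} (a : Fin r → ℤ) (y : Fin r → ℂ) :
    mev (pwc (D := D) a) y = (∏ i, (y i - (a i : ℂ))) ^ D := by
  classical
  have h1 : ∀ i, (y i - (a i : ℂ)) ^ D =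
      ∑ k : Fin (D + 1), y i ^ (k : ℕ) * (-(a i : ℂ)) ^ (D - (k : ℕ)) * (D.choose (k : ℕ) : ℂ) := by
    intro i
    rw [sub_eq_add_neg, add_pow, Finset.sum_range]
  rw [← Finset.prod_pow, Finset.prod_congr rfl fun i _ => h1 i, Finset.prod_univ_sum,
    Fintype.piFinset_univ, mev]
  refine Finset.sum_congr rfl fun k _ => ?_
  rw [pwc]
  push_cast
  rw [← Finset.prod_mul_distrib]
  refine Finset.prod_congr rfl fun i _ => ?_
  ring

theorem mev_add {r D : ℕ} (c c' : (Fin r → Fin (D + 1)) → ℤ) (y : Fin r → ℂ) :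
    mev (fun k => c k - c' k) y = mev c y - mev c' y := by
  rw [mev, mev, mev, ← Finset.sum_sub_distrib]
  refine Finset.sum_congr rfl fun k _ => ?_
  push_cast
  ring

theorem mev_mul {r D : ℕ} (w : ℤ) (c : (Fin r → Fin (D + 1)) → ℤ) (y : Fin r → ℂ) :
    mev (fun k => w * c k) y = w * mev c y := by
  rw [mev, mev, Finset.mul_sum]
  refine Finset.sum_congr rfl fun k _ => ?_
  push_cast
  ring

theorem mev_zero {r D : ℕ} (y : Fin r → ℂ) : mev (fun _ : Fin r → Fin (D + 1) => 0) y = 0 := by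
  rw [mev]
  refine Finset.sum_eq_zero fun k _ => ?_
  rw [Int.cast_zero, zero_mul]

section place

variable {V : ValuationSubring ℂ} {r : ℕ} {c y : Fin r → ℂ}

/-- monomials at normalized points -/
theorem mon_le (hc : ∀ i, V.valuation (c i) ≤ 1) (hcy : ∀ i, V.valuation (c i * y i) ≤ 1) {D : ℕ}
    (k : Fin r → ℕ) (hk : ∀ i, k i ≤ D) : V.valuation ((∏ i, c i) ^ D * ∏ i, y i ^ k i) ≤ 1 := by
  have h1 : (∏ i, c i) ^ D * ∏ i, y i ^ k i = ∏ i, (c i ^ (D - k i) * (c i * y i) ^ k i) := by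
    rw [← Finset.prod_pow, ← Finset.prod_mul_distrib]
    refine Finset.prod_congr rfl fun i _ => ?_
    have h2 : D = (D - k i) + k i := (Nat.sub_add_cancel (hk i)).symm
    calc c i ^ D * y i ^ k i = c i ^ ((D - k i) + k i) * y i ^ k i := by rw [← h2]
      _ = _ := by rw [pow_add, mul_pow, mul_assoc]
  rw [h1, map_prod]
  refine Finset.prod_le_one' fun i _ => ?_
  rw [map_mul, map_pow, map_pow]
  exact mul_le_one' (pow_le_one₀ zero_le (hc i)) (pow_le_one₀ zero_le (hcy i))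

/-- values of polynomials whose coefficients are divisible by `M` -/
theorem mev_le (hc : ∀ i, V.valuation (c i) ≤ 1) (hcy : ∀ i, V.valuation (c i * y i) ≤ 1) {D : ℕ}
    {M : ℤ} {g : (Fin r → Fin (D + 1)) → ℤ} (hg : ∀ k, M ∣ g k) :
    V.valuation ((∏ i, c i) ^ D * mev g y) ≤ V.valuation (M : ℂ) := by
  rw [mev, Finset.mul_sum]
  refine Valuation.map_sum_le _ fun k _ => ?_
  obtain ⟨w, hw⟩ := hg k
  have h1 : (∏ i, c i) ^ D * ((g k : ℂ) * ∏ i, y i ^ (k i : ℕ)) =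
      (M : ℂ) * ((w : ℂ) * ((∏ i, c i) ^ D * ∏ i, y i ^ (k i : ℕ))) := by
    rw [hw]
    push_cast
    ring
  rw [h1, map_mul, map_mul]
  refine mul_le_of_le_one_right' (mul_le_one' (Pool.Agent.TH971.SP.int_le V w) ?_)
  exact mon_le hc hcy (fun i => (k i : ℕ)) fun i => Nat.lt_succ_iff.1 (k i).2

/-- values of polynomials with integral coefficients -/
theorem eval_le (hc : ∀ i, V.valuation (c i) ≤ 1) (hcy : ∀ i, V.valuation (c i * y i) ≤ 1) {D : ℕ}
    {f : MvPolynomial (Fin r) ℂ} (hf : ∀ k, V.valuation (f.coeff k) ≤ 1)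
    (hfD : ∀ i, f.degreeOf i ≤ D) : V.valuation ((∏ i, c i) ^ D * eval y f) ≤ 1 := by
  rw [eval_eq', Finset.mul_sum]
  refine Valuation.map_sum_le _ fun k hk => ?_
  have h1 : (∏ i, c i) ^ D * (f.coeff k * ∏ i, y i ^ (k i : ℕ)) =
      f.coeff k * ((∏ i, c i) ^ D * ∏ i, y i ^ (k i : ℕ)) := by ring
  rw [h1, map_mul]
  exact mul_le_one' (hf k) (mon_le hc hcy (fun i => k i) fun i =>
    (monomial_le_degreeOf i hk).trans (hfD i))

end place

/-- The abstract dichotomy. -/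
theorem dich_abs (V : ValuationSubring ℂ) {α β : ℤ} {N D t : ℂ}
    (hN : V.valuation (N - (α + β * t)) < max 1 (V.valuation t))
    (hD : V.valuation (D - (1 + t)) < max 1 (V.valuation t)) :
    V.valuation t = 1 ∨ (D ≠ 0 ∧
      (V.valuation (N / D - (α : ℂ)) < 1 ∨ V.valuation (N / D - (β : ℂ)) < 1)) := by
  set v := V.valuation with hv
  rcases lt_trichotomy (v t) 1 with h1 | h1 | h1
  · right
    rw [max_eq_left h1.le] at hN hD
    have h3 : v (N - α) < 1 := by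
      have e : N - α = (N - (α + β * t)) + β * t := by ring
      rw [e]
      refine (v.map_add _ _).trans_lt (max_lt hN ?_)
      rw [map_mul]
      exact (mul_le_of_le_one_left' (Pool.Agent.TH971.SP.int_le V β)).trans_lt h1
    have h4 : v (D - 1) < 1 := by
      have e : D - 1 = (D - (1 + t)) + t := by ring
      rw [e]
      exact (v.map_add _ _).trans_lt (max_lt hD h1)
    obtain ⟨h5, h6⟩ := val_div_sub_lt V N D (α : ℂ) (Pool.Agent.TH971.SP.int_le V α) h3 h4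
    exact ⟨h5, Or.inl h6⟩
  · left
    exact h1
  · right
    rw [max_eq_right h1.le] at hN hD
    have ht0 : t ≠ 0 := by
      rintro h0
      rw [h0, map_zero] at h1
      exact absurd h1 (not_lt.2 zero_le_one)
    have hvt0 : 0 < v t := zero_lt_one.trans h1
    have hdiv : ∀ N y : ℂ, v (N - y * t) < v t → v (N / t - y) < 1 := by
      intro N y h3
      have e : N / t - y = (N - y * t) / t := by field_simp
      rw [e, map_div₀]
      exact (div_lt_one₀ hvt0).2 h3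
    have h3 : v (N - β * t) < v t := by
      have e : N - β * t = (N - (α + β * t)) + α := by ring
      rw [e]
      exact (v.map_add _ _).trans_lt (max_lt hN ((Pool.Agent.TH971.SP.int_le V α).trans_lt h1))
    have h4 : v (D - 1 * t) < v t := by
      have e : D - 1 * t = (D - (1 + t)) + 1 := by ring
      rw [e]
      refine (v.map_add _ _).trans_lt (max_lt hD ?_)
      rw [map_one]
      exact h1
    obtain ⟨h5, h6⟩ := val_div_sub_lt V (N / t) (D / t) (β : ℂ) (Pool.Agent.TH971.SP.int_le V β)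
      (hdiv _ _ h3) (hdiv _ _ h4)
    rw [div_div_div_cancel_right₀ ht0] at h6
    refine ⟨?_, Or.inr h6⟩
    intro h7
    rw [h7, zero_div] at h5
    exact h5 rfl

/-- The targets for the coefficients of a numerator or denominator. -/
def tgL {r δ e R : ℕ} (p f : ℕ) (α β : ℤ) (a : Fin r → ℤ) (h : Fin (R + 1))
    (k : Fin r → Fin (δ + 2 * e * (h : ℕ) + 1)) : ℤ :=
  if h = 0 then (p : ℤ) ^ f * β * pwc a k else if h = Fin.last _ then α * pwc a k else 0

/-- the congruences -/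
def CL {r δ e R : ℕ} (p K f : ℕ) (α β : ℤ) (a : Fin r → ℤ)
    (c : ∀ h : Fin (R + 1), (Fin r → Fin (δ + 2 * e * (h : ℕ) + 1)) → ℤ) : Prop :=
  ∀ h k, (p : ℤ) ^ K ∣ c h k - tgL p f α β a h k

/-- The value of a numerator or denominator at a point of the fibre. -/
noncomputable def val {r δ e R : ℕ} (c : ∀ h : Fin (R + 1), (Fin r → Fin (δ + 2 * e * (h : ℕ) + 1)) → ℤ)
    (y : Fin r → ℂ) {A B : ℂ} (P : (crv A B).Point) : ℂ :=
  open Classical in
  if P = 0 then mev (c 0) y else ∑ h : Fin (R + 1), mev (c h) y * xx P ^ (R - (h : ℕ))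

section place

variable {V : ValuationSubring ℂ} {r δ e R p K f : ℕ} {c y : Fin r → ℂ} {a : Fin r → ℤ}

theorem tgL_mev (α β : ℤ) (h : Fin (R + 1)) :
    mev (tgL (δ := δ) (e := e) p f α β a h) y =
      (if h = 0 then (p : ℂ) ^ f * β else if h = Fin.last _ then (α : ℂ) else 0) *
        (∏ i, (y i - (a i : ℂ))) ^ (δ + 2 * e * (h : ℕ)) := by
  by_cases h0 : h = 0
  · rw [if_pos h0, ← mev_pwc]
    have h1 : (tgL (δ := δ) (e := e) p f α β a h) = fun k => ((p : ℤ) ^ f * β) * pwc a k := by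
      funext k
      rw [tgL, if_pos h0]
    rw [h1, mev_mul]
    push_cast
    ring
  · by_cases h1 : h = Fin.last _
    · rw [if_neg h0, if_pos h1, ← mev_pwc]
      have h2 : (tgL (δ := δ) (e := e) p f α β a h) = fun k => α * pwc a k := by
        funext k
        rw [tgL, if_neg h0, if_pos h1]
      rw [h2, mev_mul]
    · rw [if_neg h0, if_neg h1, zero_mul]
      have h2 : (tgL (δ := δ) (e := e) p f α β a h) = fun _ => 0 := by
        funext k
        rw [tgL, if_neg h0, if_neg h1]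
      rw [h2, mev_zero]

/-- The main estimate. -/
theorem near_fin (hR0 : 0 < R) (hK : f < K) (hp : V.valuation (p : ℂ) < 1) (hp0 : p ≠ 0)
    (hc : ∀ i, V.valuation (c i) ≤ 1) (hcy : ∀ i, V.valuation (c i * y i) ≤ 1)
    (hμ : V.valuation ((∏ i, c i) * ∏ i, (y i - (a i : ℂ))) = 1) {α β : ℤ}
    {g : ∀ h : Fin (R + 1), (Fin r → Fin (δ + 2 * e * (h : ℕ) + 1)) → ℤ} (hg : CL p K f α β a g)
    {A B : ℂ} (P : (crv A B).Point) (hP : P ≠ 0) :
    V.valuation ((∏ i, c i) ^ (δ + 2 * e * R) * val g y P /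
        ((∏ i, c i) * ∏ i, (y i - (a i : ℂ))) ^ (δ + 2 * e * R) -
      (α + β * ((p : ℂ) ^ f * ((∏ i, c i) ^ (e * 2) * xx P) ^ R /
        ((∏ i, c i) * ∏ i, (y i - (a i : ℂ))) ^ (2 * e * R)))) <
      max 1 (V.valuation ((p : ℂ) ^ f * ((∏ i, c i) ^ (e * 2) * xx P) ^ R /
        ((∏ i, c i) * ∏ i, (y i - (a i : ℂ))) ^ (2 * e * R))) := by
  classical
  set v := V.valuation with hv
  set C : ℂ := ∏ i, c i with hC
  set μ : ℂ := C * ∏ i, (y i - (a i : ℂ)) with hμd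
  set X : ℂ := C ^ (e * 2) * xx P with hX
  set t : ℂ := (p : ℂ) ^ f * X ^ R / μ ^ (2 * e * R) with ht
  have hμ0 : μ ≠ 0 := by
    intro h0
    rw [h0, map_zero] at hμ
    exact zero_ne_one hμ
  have hvt : v t = v (p : ℂ) ^ f * v X ^ R := by
    rw [ht, map_div₀, map_mul, map_pow, map_pow, map_pow, hμ, one_pow, div_one]
  have hpC : (p : ℂ) ≠ 0 := by exact_mod_cast hp0
  have hpv0 : 0 < v (p : ℂ) := zero_lt_iff.2 ((map_ne_zero v).2 hpC)
  have hmax : (0 : V.ValueGroup) < max 1 (v t) := lt_of_lt_of_le zero_lt_one (le_max_left _ _)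
  have hval : val g y P = ∑ h : Fin (R + 1), mev (g h) y * xx P ^ (R - (h : ℕ)) := by
    rw [val, if_neg hP]
  have hne : (Fin.last R) ≠ 0 := by
    intro h6
    have h7 := congrArg Fin.val h6
    rw [Fin.val_last, Fin.val_zero] at h7
    exact hR0.ne' h7
  -- powers of `C`
  have hCp : ∀ h : Fin (R + 1), C ^ (δ + 2 * e * R) * xx P ^ (R - (h : ℕ)) =
      C ^ (δ + 2 * e * (h : ℕ)) * X ^ (R - (h : ℕ)) := by
    intro h
    have h1 := expo δ e (h : ℕ) R (by have := h.2; omega)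
    rw [hX, mul_pow, ← pow_mul, h1, pow_add]
    ring
  have h1 : C ^ (δ + 2 * e * R) * val g y P =
      ∑ h : Fin (R + 1), (C ^ (δ + 2 * e * (h : ℕ)) * mev (g h) y) * X ^ (R - (h : ℕ)) := by
    rw [hval, Finset.mul_sum]
    refine Finset.sum_congr rfl fun h _ => ?_
    have := hCp h
    linear_combination mev (g h) y * this
  have h2 : ∑ h : Fin (R + 1), (C ^ (δ + 2 * e * (h : ℕ)) *
        mev (tgL (δ := δ) (e := e) p f α β a h) y) * X ^ (R - (h : ℕ)) =
      α * μ ^ (δ + 2 * e * R) + (p : ℂ) ^ f * β * μ ^ δ * X ^ R := by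
    rw [Finset.sum_congr rfl fun h _ => by rw [tgL_mev α β h]]
    rw [← Finset.add_sum_erase _ _ (Finset.mem_univ (0 : Fin (R + 1))),
      ← Finset.add_sum_erase _ _ (Finset.mem_erase.2 ⟨hne, Finset.mem_univ (Fin.last R)⟩),
      Finset.sum_eq_zero, if_pos rfl, if_neg hne, if_pos rfl, Fin.val_zero, Fin.val_last,
      Nat.sub_self, Nat.sub_zero, mul_zero, add_zero, hμd, mul_pow, mul_pow]
    · ring
    · intro h hh
      rw [if_neg (Finset.ne_of_mem_erase (Finset.mem_of_mem_erase hh)),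
        if_neg (Finset.ne_of_mem_erase hh)]
      ring
  have h3 : C ^ (δ + 2 * e * R) * val g y P / μ ^ (δ + 2 * e * R) - (α + β * t) =
      (∑ h : Fin (R + 1), (C ^ (δ + 2 * e * (h : ℕ)) *
        mev (fun k => g h k - tgL p f α β a h k) y) * X ^ (R - (h : ℕ))) /
        μ ^ (δ + 2 * e * R) := by
    have e1 : ∑ h : Fin (R + 1), (C ^ (δ + 2 * e * (h : ℕ)) *
        mev (fun k => g h k - tgL p f α β a h k) y) * X ^ (R - (h : ℕ)) =
        C ^ (δ + 2 * e * R) * val g y P -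
          (α * μ ^ (δ + 2 * e * R) + (p : ℂ) ^ f * β * μ ^ δ * X ^ R) := by
      rw [h1, ← h2, ← Finset.sum_sub_distrib]
      refine Finset.sum_congr rfl fun h _ => ?_
      rw [mev_add]
      ring
    rw [e1, ht, eq_div_iff (pow_ne_zero _ hμ0)]
    have hμδ : μ ^ (δ + 2 * e * R) = μ ^ δ * μ ^ (2 * e * R) := pow_add _ _ _
    have hμ1 : μ ^ (2 * e * R) ≠ 0 := pow_ne_zero _ hμ0
    have hμ2 : μ ^ δ ≠ 0 := pow_ne_zero _ hμ0
    rw [hμδ]
    field_simp
  rw [h3, map_div₀, map_pow, hμ, one_pow, div_one]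
  refine Valuation.map_sum_lt _ hmax.ne' fun h _ => ?_
  rw [map_mul, map_pow]
  have h4 : v (C ^ (δ + 2 * e * (h : ℕ)) * mev (fun k => g h k - tgL p f α β a h k) y) ≤
      v (((p : ℤ) ^ K : ℤ) : ℂ) := mev_le hc hcy (hg h)
  have hcast : v (((p : ℤ) ^ K : ℤ) : ℂ) = v (p : ℂ) ^ K := by
    push_cast
    rw [map_pow]
  rw [hcast] at h4
  have h5 : v (p : ℂ) ^ K ≤ v (p : ℂ) * v (p : ℂ) ^ f := by
    rw [← pow_succ']
    exact pow_le_pow_right_of_le_one' hp.le hK
  have hpf : v (p : ℂ) ^ f ≤ 1 := pow_le_one₀ zero_le hp.le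
  have h6 : v (p : ℂ) ^ f * v X ^ (R - (h : ℕ)) ≤ max 1 (v t) := by
    rw [hvt]
    rcases le_total (v X) 1 with hx | hx
    · exact (mul_le_one' hpf (pow_le_one₀ zero_le hx)).trans (le_max_left _ _)
    · refine le_trans ?_ (le_max_right _ _)
      exact mul_le_mul_right (pow_le_pow_right₀ hx (Nat.sub_le _ _)) _
  calc v (C ^ (δ + 2 * e * (h : ℕ)) * mev (fun k => g h k - tgL p f α β a h k) y) *
        v X ^ (R - (h : ℕ))
      ≤ v (p : ℂ) * v (p : ℂ) ^ f * v X ^ (R - (h : ℕ)) := mul_le_mul_left (h4.trans h5) _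
    _ = v (p : ℂ) * (v (p : ℂ) ^ f * v X ^ (R - (h : ℕ))) := by rw [mul_assoc]
    _ ≤ v (p : ℂ) * max 1 (v t) := mul_le_mul_right h6 _
    _ < 1 * max 1 (v t) := mul_lt_mul_of_pos_right hp hmax
    _ = _ := one_mul _

/-- The value at the origin. -/
theorem near_inf (hK : f < K) (hp : V.valuation (p : ℂ) < 1) (hp0 : p ≠ 0)
    (hc : ∀ i, V.valuation (c i) ≤ 1) (hcy : ∀ i, V.valuation (c i * y i) ≤ 1)
    (hμ : V.valuation ((∏ i, c i) * ∏ i, (y i - (a i : ℂ))) = 1) {α β : ℤ}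
    {g : ∀ h : Fin (R + 1), (Fin r → Fin (δ + 2 * e * (h : ℕ) + 1)) → ℤ}
    (hg : CL p K f α β a g) {A B : ℂ} (P : (crv A B).Point) (hP : P = 0) :
    V.valuation ((∏ i, c i) ^ δ * val g y P /
        ((p : ℂ) ^ f * ((∏ i, c i) * ∏ i, (y i - (a i : ℂ))) ^ δ) - β) < 1 := by
  classical
  set v := V.valuation with hv
  set C : ℂ := ∏ i, c i with hC
  set μ : ℂ := C * ∏ i, (y i - (a i : ℂ)) with hμd
  have hμ0 : μ ≠ 0 := by
    intro h0
    rw [h0, map_zero] at hμ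
    exact zero_ne_one hμ
  have hpC : (p : ℂ) ≠ 0 := by exact_mod_cast hp0
  have hpv0 : 0 < v (p : ℂ) := zero_lt_iff.2 ((map_ne_zero v).2 hpC)
  have hval : val g y P = mev (g 0) y := by rw [val, if_pos hP]
  have h2 : C ^ δ * mev (tgL (δ := δ) (e := e) (R := R) p f α β a 0) y =
      (p : ℂ) ^ f * β * μ ^ δ := by
    rw [tgL_mev, if_pos rfl, Fin.val_zero, mul_zero, add_zero, hμd, mul_pow]
    ring
  have h3 : C ^ δ * val g y P / ((p : ℂ) ^ f * μ ^ δ) - β =
      (C ^ δ * mev (fun k => g 0 k - tgL p f α β a 0 k) y) / ((p : ℂ) ^ f * μ ^ δ) := by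
    rw [mev_add, mul_sub, h2, hval]
    have hμ2 : μ ^ δ ≠ 0 := pow_ne_zero _ hμ0
    have hpf : (p : ℂ) ^ f ≠ 0 := pow_ne_zero _ hpC
    field_simp
  have h4 : v (C ^ (δ + 2 * e * ((0 : Fin (R + 1)) : ℕ)) *
      mev (fun k => g 0 k - tgL p f α β a 0 k) y) ≤ v (((p : ℤ) ^ K : ℤ) : ℂ) :=
    mev_le hc hcy (hg 0)
  have hcast : v (((p : ℤ) ^ K : ℤ) : ℂ) = v (p : ℂ) ^ K := by
    push_cast
    rw [map_pow]
  have hexp : C ^ (δ + 2 * e * ((0 : Fin (R + 1)) : ℕ)) = C ^ δ := by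
    rw [Fin.val_zero, mul_zero, add_zero]
  rw [hcast, hexp] at h4
  have hden : v ((p : ℂ) ^ f * μ ^ δ) = v (p : ℂ) ^ f := by
    rw [map_mul, map_pow, map_pow, hμ, one_pow, mul_one]
  rw [h3, map_div₀, hden, div_lt_one₀ (pow_pos hpv0 f)]
  refine h4.trans_lt ?_
  exact pow_lt_pow_right_of_lt_one₀ hpv0 hp hK

/-- The dichotomy at one coordinate. -/
theorem loc_dich (hR0 : 0 < R) (hK : f < K) (hp : V.valuation (p : ℂ) < 1) (hp0 : p ≠ 0)
    (hc0 : ∀ i, c i ≠ 0)
    (hc : ∀ i, V.valuation (c i) ≤ 1) (hcy : ∀ i, V.valuation (c i * y i) ≤ 1)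
    (hμ : V.valuation ((∏ i, c i) * ∏ i, (y i - (a i : ℂ))) = 1) {α β : ℤ}
    {gn gd : ∀ h : Fin (R + 1), (Fin r → Fin (δ + 2 * e * (h : ℕ) + 1)) → ℤ}
    (hn : CL p K f α β a gn) (hd : CL p K f 1 1 a gd) {A B : ℂ} (P : (crv A B).Point) :
    (P ≠ 0 ∧ V.valuation ((∏ i, c i) ^ (e * 2) * xx P) ^ R * V.valuation (p : ℂ) ^ f = 1) ∨
    (val gd y P ≠ 0 ∧ (V.valuation (val gn y P / val gd y P - (α : ℂ)) < 1 ∨
       V.valuation (val gn y P / val gd y P - (β : ℂ)) < 1)) := by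
  set v := V.valuation with hv
  have hC0 : (∏ i, c i) ≠ 0 := Finset.prod_ne_zero_iff.2 fun i _ => hc0 i
  have hμ0 : (∏ i, c i) * ∏ i, (y i - (a i : ℂ)) ≠ 0 := by
    intro h0
    rw [h0, map_zero] at hμ
    exact zero_ne_one hμ
  have hpC : (p : ℂ) ≠ 0 := by exact_mod_cast hp0
  by_cases hP : P = 0
  · right
    have hN := near_inf hK hp hp0 hc hcy hμ hn P hP
    have hD := near_inf hK hp hp0 hc hcy hμ hd P hP
    rw [Int.cast_one] at hD
    obtain ⟨h5, h6⟩ := val_div_sub_lt V _ _ (β : ℂ) (Pool.Agent.TH971.SP.int_le V β) hN hD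
    have hq : (p : ℂ) ^ f * ((∏ i, c i) * ∏ i, (y i - (a i : ℂ))) ^ δ ≠ 0 :=
      mul_ne_zero (pow_ne_zero _ hpC) (pow_ne_zero _ hμ0)
    rw [div_div_div_cancel_right₀ hq, mul_div_mul_left _ _ (pow_ne_zero _ hC0)] at h6
    refine ⟨?_, Or.inr h6⟩
    intro h7
    rw [h7, mul_zero, zero_div] at h5
    exact h5 rfl
  · have hN := near_fin hR0 hK hp hp0 hc hcy hμ hn P hP
    have hD := near_fin hR0 hK hp hp0 hc hcy hμ hd P hP
    rw [Int.cast_one, one_mul] at hD
    rcases dich_abs V hN hD with h1 | ⟨h5, h6⟩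
    · left
      refine ⟨hP, ?_⟩
      rw [map_div₀, map_mul, map_pow, map_pow, map_pow, hμ, one_pow, div_one, mul_comm] at h1
      exact h1
    · right
      have hq : ((∏ i, c i) * ∏ i, (y i - (a i : ℂ))) ^ (δ + 2 * e * R) ≠ 0 := pow_ne_zero _ hμ0
      rw [div_div_div_cancel_right₀ hq, mul_div_mul_left _ _ (pow_ne_zero _ hC0)] at h6
      refine ⟨?_, h6⟩
      intro h7
      rw [h7, mul_zero, zero_div] at h5
      exact h5 rfl

end place

end Pool.Agent.Y645.PK
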