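import Pool.Agent.TH971.RF.B6
import Pool.Agent.TH971.RF.C3
import Pool.Agent.W282.ZP.Choice2
import Pool.Agent.W466.ZF
import Pool.Agent.W466.ZN
import Pool.Agent.W466.ZV

/-!
Pink's conjecture for random multisections of a power of an elliptic scheme: the residue class.
-/

open Function MvPolynomial H294ZP

namespace Pool.Agent.Y645.PK

open Pool.Agent.W466.ZP Pool.Agent.W282.RW Pool.Agent.W466.EP Pool.Agent.TH971.RF

/-- The index set of the coefficients of the equations of the multisections. -/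
abbrev Idx (N q R e : ℕ) (d : Fin q → ℕ) : Type :=
  (l : Fin q) × (h : Fin (R + 1)) × Sym (Fin (N + 1)) (d l + 2 * e * (h : ℕ))

/-- targets at the main prime -/
noncomputable def tgtP {N q m R e : ℕ} {d : Fin q → ℕ} (p : ℕ)
    (s : Fin (m + 1) → Fin (N + 1) → ℤ) (x : Idx N q R e d) : ℤ :=
  if x.2.1 = 0 then (p : ℤ) ^ (R + (x.1 : ℕ) + 1) * pw _ (vdm s (x.1 : ℕ)) x.2.2
  else if x.2.1 = Fin.last _ then (p : ℤ) ^ 0 * pw _ (vdm s (x.1 : ℕ)) x.2.2 else 0

theorem two_primes (a : ℕ) : ∃ p p' : ℕ, p.Prime ∧ p'.Prime ∧ a < p ∧ a < p' ∧ p ≠ p' := by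
  obtain ⟨p, h1, h2⟩ := Nat.exists_infinite_primes (a + 1)
  obtain ⟨p', h3, h4⟩ := Nat.exists_infinite_primes (p + 1)
  exact ⟨p, p', h2, h4, by omega, by omega, by omega⟩

/-- The residue class. -/
theorem exists_class {κ : Type*} (N q m R e : ℕ) (hR0 : 0 < R) (hqR : q ≤ R) (d : Fin q → ℕ)
    (G : κ → MvPolynomial (Fin (N + 1)) ℂ) (hhom : ∀ k, ∃ e, (G k).IsHomogeneous e)
    (halg : ∀ k s, IsAlgebraic ℚ ((G k).coeff s))
    (hdim1 : ∃ t : Fin (m + 1) → Fin (N + 1) → ℂ, ∀ y : Fin (N + 1) → ℂ,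
      (∀ k, eval y (G k) = 0) → (∀ b, ∑ j, t b j * y j = 0) → y = 0)
    (A B : MvPolynomial (Fin (N + 1)) ℂ) (hA : A.IsHomogeneous (4 * e))
    (hB : B.IsHomogeneous (6 * e)) (hAa : ∀ s, IsAlgebraic ℚ (A.coeff s))
    (hBa : ∀ s, IsAlgebraic ℚ (B.coeff s)) (Q₀ : ℕ) (hQ₀ : 0 < Q₀) (F₀ : Idx N q R e d → ℤ) :
    ∃ (Q : ℕ) (F₁ : Idx N q R e d → ℤ), 0 < Q ∧ ∀ F : Idx N q R e d → ℤ,
      (∀ i, (Q : ℤ) ∣ F i - F₁ i) →
      (∀ i, (Q₀ : ℤ) ∣ F i - F₀ i) ∧
      (m ≤ R → ∀ y : Fin (N + 1) → ℂ, y ≠ 0 → (∀ k, eval y (G k) = 0) → ∀ l,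
        ∃ h : Fin (R + 1), ev (fun u => F ⟨l, h, u⟩) y ≠ 0) ∧
      ∀ y : Fin (N + 1) → ℂ, y ≠ 0 → (∀ k, eval y (G k) = 0) →
        ∀ (E : EndRing (eval y A) (eval y B))
          (P : Fin q → (crv (eval y A) (eval y B)).Point),
          (∀ l, OnM (d := d l) (e := e) (fun h u => F ⟨l, h, u⟩) y (P l)) →
          ∀ Λ : Submodule E.O (Fin q → E.O),
          (∀ a ∈ Λ, ∃ t : ℕ, 0 < t ∧ t • ∑ l, E.act (a l) (P l) = 0) →
          ∀ (j0 : Fin (N + 1)) (T : Finset (Fin (N + 1))),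
            AlgebraicIndependent ℚ (fun j : T => y j / y j0) →
            T.card + Module.finrank E.O Λ ≤ m := by
  classical
  obtain ⟨t, ht⟩ := hdim1
  obtain ⟨s, hs⟩ := int_forms G hhom t ht
  obtain ⟨D, hD, hgood⟩ := good_prime G halg hhom s hs
  let Y : Set (Fin (N + 1) → ℂ) := {y | ∀ k, eval y (G k) = 0}
  have hgood' : Good Y s D := hgood
  have hgv := good_vdm hgood' q
  have hDM : 0 < D * (q + m).factorial := Nat.mul_pos hD (Nat.factorial_pos _)
  obtain ⟨DA, hDA, hDA'⟩ := Pool.Agent.W466.ZP.alg_mem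
    (Sum.elim (fun u : A.support => A.coeff (u : Fin (N + 1) →₀ ℕ))
      (fun u : B.support => B.coeff (u : Fin (N + 1) →₀ ℕ))) (by
      rintro (u | u)
      · exact hAa _
      · exact hBa _)
  obtain ⟨p, p', hp, hp', hpge, hpge', hne⟩ := two_primes (D + DA + Q₀ + q + m + R)
  have hpD : ¬ p ∣ D := fun h => by
    have := Nat.le_of_dvd hD h
    omega
  have hpD' : ¬ p' ∣ D := fun h => by
    have := Nat.le_of_dvd hD h
    omega
  have hpDA : ¬ p ∣ DA := fun h => by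
    have := Nat.le_of_dvd hDA h
    omega
  let K : ℕ := R + q + 2
  -- the moduli
  let M : Fin 3 → ℕ := ![Q₀, p ^ K, p']
  have hMpos : ∀ i, 0 < M i := by
    intro i
    fin_cases i
    · exact hQ₀
    · exact pow_pos hp.pos _
    · exact hp'.pos
  have hQp : ∀ {r : ℕ}, r.Prime → Q₀ < r → Nat.Coprime Q₀ r := by
    intro r hr hlt
    rw [Nat.coprime_comm, hr.coprime_iff_not_dvd]
    intro h
    have := Nat.le_of_dvd hQ₀ h
    omega
  have hc01 : Nat.Coprime Q₀ (p ^ K) := (hQp hp (by omega)).pow_right _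
  have hc02 : Nat.Coprime Q₀ p' := hQp hp' (by omega)
  have hc12 : Nat.Coprime (p ^ K) p' := ((Nat.coprime_primes hp hp').2 hne).pow_left _
  have hMcop : Pairwise (Nat.Coprime on M) := by
    intro i j hij
    fin_cases i <;> fin_cases j
    · exact absurd rfl hij
    · exact hc01
    · exact hc02
    · exact hc01.symm
    · exact absurd rfl hij
    · exact hc12
    · exact hc02.symm
    · exact hc12.symm
    · exact absurd rfl hij
  let T : Fin 3 → Idx N q R e d → ℤ := ![F₀, tgtP p s, fun x => pw _ (vdm s (x.2.1 : ℕ)) x.2.2]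
  have hF₁ : ∀ x, ∃ r : ℤ, ∀ c, (M c : ℤ) ∣ r - T c x := fun x =>
    crt M hMpos hMcop (fun c => T c x)
  choose F₁ hF₁ using hF₁
  refine ⟨∏ i, M i, F₁, Finset.prod_pos fun i _ => hMpos i, fun F hF => ?_⟩
  have hFc : ∀ c x, (M c : ℤ) ∣ F x - T c x := by
    intro c x
    have h3 : (M c : ℤ) ∣ ((∏ i, M i : ℕ) : ℤ) := by
      exact_mod_cast Finset.dvd_prod_of_mem M (Finset.mem_univ c)
    have h4 := dvd_add (h3.trans (hF x)) (hF₁ x c)
    rwa [sub_add_sub_cancel] at h4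
  refine ⟨fun i => hFc 0 i, ?_, ?_⟩
  · -- finiteness
    intro hmR y hy hyG l
    obtain ⟨V, hV⟩ := H294ZP.exists_val (fun i : Empty => i.elim)
      (algebraicIndependent_empty_type) hp'
    obtain ⟨c, hc, hcV, -, hb⟩ := hgood' p' hp' hpD' V hV.1 y hy hyG
    obtain ⟨τ, hτ, h1⟩ := vdm_unit (M := R + m) hp' (by omega) V hV.1 s (c • y) hcV hb
      ((Finset.univ : Finset (Fin (R + 1))).image Fin.val) (by
        intro τ hτ
        obtain ⟨h, -, rfl⟩ := Finset.mem_image.1 hτ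
        have := h.2
        omega) (by
        rw [Finset.card_image_of_injective _ Fin.val_injective, Finset.card_univ,
          Fintype.card_fin]
        omega)
    obtain ⟨h, -, rfl⟩ := Finset.mem_image.1 hτ
    refine ⟨h, fun h0 => ?_⟩
    have h2 : V.valuation (ev (fun u => F ⟨l, h, u⟩) (c • y) -
        ev (pw _ (vdm s (h : ℕ))) (c • y)) ≤ V.valuation (((p' : ℤ)) : ℂ) :=
      ev_congr V hcV (p' : ℤ) fun u => hFc 2 ⟨l, h, u⟩
    rw [ev_smul, h0, mul_zero, zero_sub, Valuation.map_neg, ev_pw, map_pow, h1, one_pow,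
      Int.cast_natCast] at h2
    have h3 : V.valuation (p' : ℂ) < 1 := by
      rw [← ValuationSubring.mem_nonunits_iff]
      exact hV.1
    exact absurd h2 (not_le.2 h3)
  · intro y hy hyG E P hP Λ hΛ j0 S' hS'
    have hC : ∀ l : Fin q, Cong1 K p (R + (l : ℕ) + 1) (vdm s (l : ℕ))
        (d := d l) (e := e) (R := R) (fun (h : Fin (R + 1)) u => F ⟨l, h, u⟩) := by
      intro l
      have hcast : (((p ^ K : ℕ) : ℕ) : ℤ) = (p : ℤ) ^ K := by rw [Nat.cast_pow]
      have h5 : ∀ (h : Fin (R + 1)) (u : Sym (Fin (N + 1)) (d l + 2 * e * (h : ℕ))),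
          (p : ℤ) ^ K ∣ F ⟨l, h, u⟩ - tgtP p s ⟨l, h, u⟩ := by
        intro h u
        have := hFc 1 ⟨l, h, u⟩
        rw [← hcast]
        exact this
      have hne : (Fin.last R) ≠ 0 := by
        intro h6
        have h7 := congrArg Fin.val h6
        rw [Fin.val_last, Fin.val_zero] at h7
        exact hR0.ne' h7
      refine ⟨fun u => ?_, fun u => ?_, fun h h6 h7 u => ?_⟩
      · have h8 := h5 0 u
        rwa [tgtP, if_pos rfl] at h8
      · have h8 := h5 (Fin.last _) u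
        rwa [tgtP, if_neg hne, if_pos rfl] at h8
      · have h8 := h5 h u
        rwa [tgtP, if_neg h6, if_neg h7, sub_zero] at h8
    have hint : ∀ V : ValuationSubring ℂ, (p : ℂ) ∈ V.nonunits →
        ∀ u, A.coeff u ∈ V ∧ B.coeff u ∈ V := by
      intro V hV u
      have h1 := hDA' p hp hpDA V hV
      constructor
      · by_cases hu : u ∈ A.support
        · exact h1 (Sum.inl ⟨u, hu⟩)
        · rw [notMem_support_iff.1 hu]
          exact V.zero_mem
      · by_cases hu : u ∈ B.support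
        · exact h1 (Sum.inr ⟨u, hu⟩)
        · rw [notMem_support_iff.1 hu]
          exact V.zero_mem
    have hcrit := criterionP (K := K) hR0 hqR (by omega) d Y s D hgood' A B hA hB
      (fun l h u => F ⟨l, h, u⟩) hp hpD (by omega) hint hC y hy hyG E P hP Λ hΛ
    -- a linear form which does not vanish
    obtain ⟨b0, hb0⟩ : ∃ b0 : Fin (m + 1), ∑ j, (vdm s (q + (b0 : ℕ)) j : ℂ) * y j ≠ 0 := by
      obtain ⟨r, hrge, hr⟩ := Nat.exists_infinite_primes (D * (q + m).factorial + 1)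
      obtain ⟨V, hV⟩ := H294ZP.exists_val (fun i : Empty => i.elim)
        (algebraicIndependent_empty_type) hr
      obtain ⟨c, -, -, -, b, hb⟩ := hgv r hr (fun h => by
        have := Nat.le_of_dvd hDM h
        omega) V hV.1 y hy hyG
      refine ⟨b, fun h0 => ?_⟩
      rw [lf_smul, h0, mul_zero, map_zero] at hb
      exact zero_ne_one hb
    set c0 : ℂ := ∑ j, (vdm s (q + (b0 : ℕ)) j : ℂ) * y j with hc0
    have hz : c0⁻¹ • y ≠ 0 := smul_ne_zero (inv_ne_zero hb0) hy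
    have hzY : c0⁻¹ • y ∈ Y := by
      intro k
      obtain ⟨w, hw⟩ := hhom k
      rw [Pool.Agent.W466.ZC.eval_smul hw, hyG k, mul_zero]
    have hrange : (fun b : Fin (m + 1) => ∑ i, (vdm s (q + (b : ℕ)) i : ℂ) * (c0⁻¹ • y) i) =
        fun b : Fin (m + 1) => c0⁻¹ * ∑ j, (vdm s (q + (b : ℕ)) j : ℂ) * y j := by
      funext b
      rw [lf_smul]
    have h3 := rk_ratio hDM hgv hz hzY j0 S' (by
      convert hS' using 1
      funext j
      rw [Pi.smul_apply, Pi.smul_apply, smul_eq_mul, smul_eq_mul,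
        mul_div_mul_left _ _ (inv_ne_zero hb0)])
    rw [hrange] at h3
    obtain ⟨S, hS1, hS2⟩ := exists_sub _ _ h3
    rw [← hS1]
    exact hcrit b0 S hS2 hb0

end Pool.Agent.Y645.PK
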