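import Pool.Agent.Y645.PK.Cor
import Pool.Agent.Y645.PK.Frm

/-!
The argument at one place (helper file for Pink's conjecture for random pull-backs).
-/

set_option autoImplicit false

open MvPolynomial

namespace Pool.Agent.Y645.PK

open Pool.Agent.W282.ZP Pool.Agent.W466.EP Pool.Agent.TH971.RF

/-- The index set of the coefficients of the numerators and denominators. -/
abbrev IdxP (r q R e : ℕ) (δ : Fin q → ℕ) : Type :=
  (l : Fin q) × Fin 2 × (h : Fin (R + 1)) × (Fin r → Fin (δ l + 2 * e * (h : ℕ) + 1))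

section hom

variable {r q R e : ℕ} {δ : Fin q → ℕ}

/-- The values of the numerators (`0`) and the denominators (`1`). -/
noncomputable def nd (c : IdxP r q R e δ → ℤ) (s : Fin 2) (l : Fin q) (y : Fin r → ℂ) {A B : ℂ}
    (P : (crv A B).Point) : ℂ :=
  val (fun (h : Fin (R + 1)) k => c ⟨l, s, h, k⟩) y P

/-- The value of the homogenization of `f`. -/
noncomputable def homP (c : IdxP r q R e δ → ℤ) (f : MvPolynomial (Fin r ⊕ Fin q) ℂ)
    (y : Fin r → ℂ) {A B : ℂ} (P : Fin q → (crv A B).Point) : ℂ :=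
  ∑ k ∈ f.support, f.coeff k * ((∏ i, y i ^ k (Sum.inl i)) *
    ∏ l, (nd c 0 l y (P l) ^ k (Sum.inr l) *
      nd c 1 l y (P l) ^ (f.degreeOf (Sum.inr l) - k (Sum.inr l))))

/-- The coordinates `y_i` and the values `φ_l` of the maps. -/
noncomputable def cz (c : IdxP r q R e δ → ℤ) (y : Fin r → ℂ) {A B : ℂ}
    (P : Fin q → (crv A B).Point) : Fin r ⊕ Fin q → ℂ :=
  Sum.elim y (fun l => nd c 0 l y (P l) / nd c 1 l y (P l))

theorem homP_eq (c : IdxP r q R e δ → ℤ) (f : MvPolynomial (Fin r ⊕ Fin q) ℂ)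
    (y : Fin r → ℂ) {A B : ℂ} (P : Fin q → (crv A B).Point)
    (hd : ∀ l, f.degreeOf (Sum.inr l) ≠ 0 → nd c 1 l y (P l) ≠ 0) :
    homP c f y P = (∏ l, nd c 1 l y (P l) ^ f.degreeOf (Sum.inr l)) * eval (cz c y P) f := by
  classical
  rw [homP, eval_eq', Finset.mul_sum]
  refine Finset.sum_congr rfl fun k hk => ?_
  have h2 : ∏ l, (nd c 0 l y (P l) ^ k (Sum.inr l) *
      nd c 1 l y (P l) ^ (f.degreeOf (Sum.inr l) - k (Sum.inr l))) =
      (∏ l, nd c 1 l y (P l) ^ f.degreeOf (Sum.inr l)) *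
        ∏ l, (nd c 0 l y (P l) / nd c 1 l y (P l)) ^ k (Sum.inr l) := by
    rw [← Finset.prod_mul_distrib]
    refine Finset.prod_congr rfl fun l _ => ?_
    have hki : k (Sum.inr l) ≤ f.degreeOf (Sum.inr l) := monomial_le_degreeOf _ hk
    by_cases h0 : f.degreeOf (Sum.inr l) = 0
    · have h1 : k (Sum.inr l) = 0 := by omega
      rw [h0, h1]
      simp
    · have h1 := hd l h0
      rw [div_pow, ← mul_div_assoc, eq_div_iff (pow_ne_zero _ h1), mul_assoc, ← pow_add,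
        Nat.sub_add_cancel hki, mul_comm]
  have h3 : ∏ i, cz c y P i ^ k i = (∏ i, y i ^ k (Sum.inl i)) *
      ∏ l, (nd c 0 l y (P l) / nd c 1 l y (P l)) ^ k (Sum.inr l) := by
    rw [Fintype.prod_sum_type]
    rfl
  rw [h2, h3]
  ring

end hom

/-- Normalized coordinates. -/
theorem exists_norm {r : ℕ} (V : ValuationSubring ℂ) (y : Fin r → ℂ) : ∃ c : Fin r → ℂ,
    (∀ i, c i ≠ 0) ∧ (∀ i, V.valuation (c i) ≤ 1) ∧ (∀ i, V.valuation (c i * y i) ≤ 1) ∧
    ∀ (i : Fin r) (a : ℤ), V.valuation (c i * (y i - (a : ℂ))) ≠ 1 →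
      V.valuation (y i - (a : ℂ)) < 1 := by
  have h0 : ∀ i, ∃ c : ℂ, (V.valuation (y i) ≤ 1 ∧ c = 1) ∨
      (1 < V.valuation (y i) ∧ c = (y i)⁻¹) := by
    intro i
    rcases le_or_gt (V.valuation (y i)) 1 with h | h
    · exact ⟨1, Or.inl ⟨h, rfl⟩⟩
    · exact ⟨_, Or.inr ⟨h, rfl⟩⟩
  choose c hc using h0
  have hy0 : ∀ i, 1 < V.valuation (y i) → y i ≠ 0 := by
    intro i h h0
    rw [h0, map_zero] at h
    exact absurd h (not_lt.2 zero_le_one)
  refine ⟨c, fun i => ?_, fun i => ?_, fun i => ?_, fun i a ha => ?_⟩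
  · rcases hc i with ⟨h, h1⟩ | ⟨h, h1⟩
    · rw [h1]
      exact one_ne_zero
    · rw [h1]
      exact inv_ne_zero (hy0 i h)
  · rcases hc i with ⟨h, h1⟩ | ⟨h, h1⟩
    · rw [h1, map_one]
    · rw [h1, map_inv₀]
      exact (inv_le_one₀ (zero_lt_one.trans h)).2 h.le
  · rcases hc i with ⟨h, h1⟩ | ⟨h, h1⟩
    · rw [h1, one_mul]
      exact h
    · rw [h1, inv_mul_cancel₀ (hy0 i h), map_one]
  · rcases hc i with ⟨h, h1⟩ | ⟨h, h1⟩
    · rw [h1, one_mul] at ha
      refine lt_of_le_of_ne ?_ ha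
      exact (Valuation.map_sub _ _ _).trans (max_le h (Pool.Agent.TH971.SP.int_le V a))
    · exfalso
      rw [h1] at ha
      apply ha
      have h1 : V.valuation (-((y i)⁻¹ * (a : ℂ))) < 1 := by
        rw [Valuation.map_neg, map_mul, map_inv₀]
        refine (mul_le_of_le_one_right' (Pool.Agent.TH971.SP.int_le V a)).trans_lt ?_
        exact (inv_lt_one₀ (zero_lt_one.trans h)).2 h
      have h2 : (y i)⁻¹ * (y i - (a : ℂ)) = 1 + -((y i)⁻¹ * (a : ℂ)) := by
        rw [mul_sub, inv_mul_cancel₀ (hy0 i h)]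
        ring
      rw [h2, Valuation.map_add_eq_of_lt_left, map_one]
      rwa [map_one]

/-- At most `d` coordinates are special. -/
theorem card_special {r q d R e : ℕ} {δ : Fin q → ℕ} {S : Type} (V : ValuationSubring ℂ)
    (f : ∀ J : Finset (Fin r ⊕ Fin q), MvPolynomial J ℂ) (w : Fin r ⊕ Fin q → S → ℤ)
    (hf : ∀ J : Finset (Fin r ⊕ Fin q), J.card = d + 1 → ∀ k, V.valuation ((f J).coeff k) ≤ 1)
    (hcor : ∀ J : Finset (Fin r ⊕ Fin q), J.card = d + 1 → ∀ c : Fin r ⊕ Fin q → S, V.valuation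
      (eval (fun i : J => ((w i (c i) : ℤ) : ℂ)) (f J)) = 1)
    (c : IdxP r q R e δ → ℤ) (y : Fin r → ℂ) {A B : ℂ} (P : Fin q → (crv A B).Point)
    (hz : ∀ J : Finset (Fin r ⊕ Fin q), J.card = d + 1 →
      homP c (rename (Subtype.val : J → Fin r ⊕ Fin q) (f J)) y P = 0)
    (Sp : Finset (Fin r ⊕ Fin q)) (hS1 : ∀ j ∈ Sp, ∃ k, V.valuation (cz c y P j - (w j k : ℂ)) < 1)
    (hS2 : ∀ l, Sum.inr l ∈ Sp → nd c 1 l y (P l) ≠ 0) : Sp.card ≤ d := by
  classical
  by_contra hcon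
  push Not at hcon
  obtain ⟨J, hJA, hJ⟩ := Finset.exists_subset_card_eq (Nat.succ_le_of_lt hcon)
  have hne : Nonempty S := by
    have h1 : Sp.Nonempty := by
      rw [← Finset.card_pos]
      omega
    obtain ⟨j, hj⟩ := h1
    exact ⟨(hS1 j hj).choose⟩
  have h0 : ∀ j, ∃ k, j ∈ Sp → V.valuation (cz c y P j - (w j k : ℂ)) < 1 := by
    intro j
    by_cases hj : j ∈ Sp
    · obtain ⟨k, hk⟩ := hS1 j hj
      exact ⟨k, fun _ => hk⟩
    · exact ⟨hne.some, fun h => absurd h hj⟩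
  choose b hb using h0
  have hdeg : ∀ i, (rename (Subtype.val : J → Fin r ⊕ Fin q) (f J)).degreeOf i ≠ 0 → i ∈ J := by
    intro i hi
    by_contra hiJ
    apply hi
    rw [← Nat.le_zero, degreeOf_le_iff]
    intro k hk
    obtain ⟨k', rfl, -⟩ := coeff_rename_ne_zero _ _ _ (mem_support_iff.1 hk)
    rw [Finsupp.mapDomain_of_notMem_range]
    rintro ⟨j, rfl⟩
    exact hiJ j.2
  have h1 := hz J hJ
  rw [homP_eq c _ y P (fun l hl => hS2 l (hJA (hdeg _ hl)))] at h1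
  have h2 := (mul_eq_zero.1 h1).resolve_left (Finset.prod_ne_zero_iff.2 fun l _ => by
    by_cases hi : (rename (Subtype.val : J → Fin r ⊕ Fin q) (f J)).degreeOf (Sum.inr l) = 0
    · rw [hi, pow_zero]
      exact one_ne_zero
    · exact pow_ne_zero _ (hS2 l (hJA (hdeg _ hi))))
  rw [eval_rename] at h2
  have h3 := val_aeval_sub_lt V (f J) (fun k => hf J hJ k) (fun i : J => cz c y P i)
    (fun i : J => ((w i (b i) : ℤ) : ℂ)) (fun i => hb i (hJA i.2))
    (fun i => Pool.Agent.TH971.SP.int_le V _)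
  have h2' : aeval (fun i : J => cz c y P i) (f J) = 0 := by
    rw [aeval_eq_eval]
    exact h2
  rw [h2', zero_sub, Valuation.map_neg, aeval_eq_eval, hcor J hJ b] at h3
  exact lt_irrefl _ h3

/-- the number of a value for the multisection `l` -/
def ix {q : ℕ} (l : Fin q) : Fin (q + 3) := ⟨(l : ℕ) + 3, by omega⟩

theorem near_sub {V : ValuationSubring ℂ} {z : ℂ} {a b : ℤ} (ha : V.valuation (z - (a : ℂ)) < 1)
    (hb : V.valuation (z - (b : ℂ)) < 1) : V.valuation (((a - b : ℤ)) : ℂ) < 1 := by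
  have h : (((a - b : ℤ)) : ℂ) = (z - (b : ℂ)) - (z - (a : ℂ)) := by
    push_cast
    ring
  rw [h]
  exact (Valuation.map_sub _ _ _).trans_lt (max_lt hb ha)

/-- The argument at one place. -/
theorem one_place {r q d e R : ℕ} (hR : q ≤ R) (hR0 : 0 < R) {δ : Fin q → ℕ} {p K : ℕ}
    (hp : p.Prime) (hK : 2 * R < K) (V : ValuationSubring ℂ) (hVp : (p : ℂ) ∈ V.nonunits)
    (harch : ∀ z : ℂ, ∃ M : ℕ, V.valuation z * V.valuation (p : ℂ) ^ M ≤ 1)
    (A B : MvPolynomial (Fin r) ℂ) (hA : ∀ k, V.valuation (A.coeff k) ≤ 1)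
    (hB : ∀ k, V.valuation (B.coeff k) ≤ 1) (hAd : ∀ i, A.degreeOf i ≤ 4 * e)
    (hBd : ∀ i, B.degreeOf i ≤ 6 * e)
    (f : ∀ J : Finset (Fin r ⊕ Fin q), MvPolynomial J ℂ) (w : Fin r ⊕ Fin q → Fin (q + 3) → ℤ)
    (hf : ∀ J : Finset (Fin r ⊕ Fin q), J.card = d + 1 → ∀ k, V.valuation ((f J).coeff k) ≤ 1)
    (hcor : ∀ J : Finset (Fin r ⊕ Fin q), J.card = d + 1 → ∀ c : Fin r ⊕ Fin q → Fin (q + 3),
      V.valuation (eval (fun i : J => ((w i (c i) : ℤ) : ℂ)) (f J)) = 1)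
    (hw : ∀ i k k', k ≠ k' → V.valuation (((w i k - w i k' : ℤ)) : ℂ) = 1)
    (c : IdxP r q R e δ → ℤ)
    (hc : ∀ l : Fin q, CL p K (R + (l : ℕ) + 1) (w (Sum.inr l) 0) (w (Sum.inr l) 1)
        (fun i => w (Sum.inl i) (ix l)) (fun (h : Fin (R + 1)) k => c ⟨l, 0, h, k⟩) ∧
      CL p K (R + (l : ℕ) + 1) 1 1
        (fun i => w (Sum.inl i) (ix l)) (fun (h : Fin (R + 1)) k => c ⟨l, 1, h, k⟩))
    (y : Fin r → ℂ) (P : Fin q → (crv (eval y A) (eval y B)).Point)
    (hz : ∀ J : Finset (Fin r ⊕ Fin q), J.card = d + 1 →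
      homP c (rename (Subtype.val : J → Fin r ⊕ Fin q) (f J)) y P = 0)
    (T : Finset (Fin r ⊕ Fin q))
    (hT1 : ∀ i, Sum.inl i ∈ T → V.valuation (y i - (w (Sum.inl i) 0 : ℂ)) < 1)
    (hT2 : ∀ l, Sum.inr l ∈ T → nd c 1 l y (P l) ≠ 0 ∧
      V.valuation (nd c 0 l y (P l) / nd c 1 l y (P l) - (w (Sum.inr l) 2 : ℂ)) < 1)
    (E : EndRing (eval y A) (eval y B)) (Λ : Submodule E.O (Fin q → E.O))
    (hΛ : ∀ a ∈ Λ, ∃ t : ℕ, 0 < t ∧ t • ∑ l, E.act (a l) (P l) = 0) :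
    T.card + Module.finrank E.O Λ ≤ d := by
  classical
  set v := V.valuation with hv
  have hp1 : v (p : ℂ) < 1 := by rwa [ValuationSubring.mem_nonunits_iff] at hVp
  have hp0 : (p : ℂ) ≠ 0 := by exact_mod_cast hp.ne_zero
  have hpv0 : v (p : ℂ) ≠ 0 := (map_ne_zero v).2 hp0
  obtain ⟨n, hn0, hn1, hny, hnk⟩ := exists_norm V y
  set C : ℂ := ∏ i, n i with hC
  have hC0 : C ≠ 0 := Finset.prod_ne_zero_iff.2 fun i _ => hn0 i
  -- the killed multisections
  let Ki : Finset (Fin q) := Finset.univ.filter fun l =>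
    v (C * ∏ i, (y i - (w (Sum.inl i) (ix l) : ℂ))) ≠ 1
  have hKi : ∀ l, l ∈ Ki → ∃ i, v (y i - (w (Sum.inl i) (ix l) : ℂ)) < 1 := by
    intro l hl
    have h1 := (Finset.mem_filter.1 hl).2
    have h2 : ∃ i, v (n i * (y i - (w (Sum.inl i) (ix l) : ℂ))) ≠ 1 := by
      by_contra hcon
      push Not at hcon
      apply h1
      rw [hC, ← Finset.prod_mul_distrib, map_prod]
      exact Finset.prod_eq_one fun i _ => hcon i
    obtain ⟨i, hi⟩ := h2
    exact ⟨i, hnk i _ hi⟩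
  choose κ hκ using hKi
  have hunk : ∀ l, l ∉ Ki → v (C * ∏ i, (y i - (w (Sum.inl i) (ix l) : ℂ))) = 1 := by
    intro l hl
    by_contra h
    exact hl (Finset.mem_filter.2 ⟨Finset.mem_univ _, h⟩)
  -- the special values
  let At : Finset (Fin q) := Finset.univ.filter fun l => l ∉ Ki ∧
    ¬ (P l ≠ 0 ∧ v (C ^ (e * 2) * xx (P l)) ^ R * v (p : ℂ) ^ (R + (l : ℕ) + 1) = 1)
  have hAt : ∀ l ∈ At, nd c 1 l y (P l) ≠ 0 ∧
      (v (nd c 0 l y (P l) / nd c 1 l y (P l) - (w (Sum.inr l) 0 : ℂ)) < 1 ∨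
        v (nd c 0 l y (P l) / nd c 1 l y (P l) - (w (Sum.inr l) 1 : ℂ)) < 1) := by
    intro l hl
    obtain ⟨h1, h2⟩ := (Finset.mem_filter.1 hl).2
    have hlt : R + (l : ℕ) + 1 < K := by
      have := l.2
      omega
    exact (loc_dich hR0 hlt hp1 hp.ne_zero hn0 hn1 hny (hunk l h1)
      (hc l).1 (hc l).2 (P l)).resolve_left h2
  have hty : ∀ l, l ∉ Ki → l ∉ At →
      P l ≠ 0 ∧ v (C ^ (e * 2) * xx (P l)) ^ R * v (p : ℂ) ^ (R + (l : ℕ) + 1) = 1 := by
    intro l h1 h2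
    by_contra h3
    exact h2 (Finset.mem_filter.2 ⟨Finset.mem_univ _, h1, h3⟩)
  have hne : ∀ {i : Fin r ⊕ Fin q} {k k' : Fin (q + 3)} {z : ℂ}, k ≠ k' →
      v (z - (w i k : ℂ)) < 1 → v (z - (w i k' : ℂ)) < 1 → False := by
    intro i k k' z hk h1 h2
    exact (near_sub h1 h2).ne (hw i k k' hk)
  -- counting
  let S1 : Finset (Fin r ⊕ Fin q) := Ki.attach.image fun l => Sum.inl (κ l.1 l.2)
  let S2 : Finset (Fin r ⊕ Fin q) := At.image Sum.inr
  have hS1 : S1.card = Ki.card := by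
    rw [Finset.card_image_of_injective, Finset.card_attach]
    intro l l' h
    have h1 : κ l.1 l.2 = κ l'.1 l'.2 := Sum.inl_injective h
    by_contra hll
    have h2 := hκ l.1 l.2
    have h3 := hκ l'.1 l'.2
    rw [← h1] at h3
    refine hne ?_ h2 h3
    intro h4
    apply hll
    have h5 := congrArg Fin.val h4
    change (l.1 : ℕ) + 3 = (l'.1 : ℕ) + 3 at h5
    exact Subtype.ext (Fin.ext (by omega))
  have hS2 : S2.card = At.card := Finset.card_image_of_injective _ Sum.inr_injective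
  have hd1 : Disjoint T S1 := by
    rw [Finset.disjoint_left]
    intro j hjT hjS
    obtain ⟨l, -, rfl⟩ := Finset.mem_image.1 hjS
    refine hne ?_ (hT1 _ hjT) (hκ l.1 l.2)
    intro h4
    have h5 := congrArg Fin.val h4
    change 0 = (l.1 : ℕ) + 3 at h5
    omega
  have hd2 : Disjoint (T ∪ S1) S2 := by
    rw [Finset.disjoint_left]
    intro j hj hjS
    obtain ⟨l, hl, rfl⟩ := Finset.mem_image.1 hjS
    rcases Finset.mem_union.1 hj with hjT | hjS1
    · rcases (hAt l hl).2 with h1 | h1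
      · refine hne ?_ (hT2 l hjT).2 h1
        intro h4
        have h5 := congrArg Fin.val h4
        change 2 % (q + 3) = 0 at h5
        rw [Nat.mod_eq_of_lt (by omega)] at h5
        omega
      · refine hne ?_ (hT2 l hjT).2 h1
        intro h4
        have h5 := congrArg Fin.val h4
        change 2 % (q + 3) = 1 % (q + 3) at h5
        rw [Nat.mod_eq_of_lt (by omega), Nat.mod_eq_of_lt (by omega)] at h5
        omega
    · obtain ⟨l', -, h⟩ := Finset.mem_image.1 hjS1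
      exact absurd h Sum.inl_ne_inr
  have hcard : ((T ∪ S1) ∪ S2).card ≤ d := by
    refine card_special V f w hf hcor c y P hz _ ?_ ?_
    · intro j hj
      rcases Finset.mem_union.1 hj with hj | hj
      · rcases Finset.mem_union.1 hj with hj | hj
        · rcases j with i | l
          · exact ⟨0, hT1 i hj⟩
          · exact ⟨2, (hT2 l hj).2⟩
        · obtain ⟨l, -, rfl⟩ := Finset.mem_image.1 hj
          exact ⟨ix l.1, hκ l.1 l.2⟩
      · obtain ⟨l, hl, rfl⟩ := Finset.mem_image.1 hj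
        rcases (hAt l hl).2 with h1 | h1
        · exact ⟨0, h1⟩
        · exact ⟨1, h1⟩
    · intro l hj
      rcases Finset.mem_union.1 hj with hj | hj
      · rcases Finset.mem_union.1 hj with hj | hj
        · exact (hT2 l hj).1
        · obtain ⟨l, -, h⟩ := Finset.mem_image.1 hj
          exact absurd h Sum.inl_ne_inr
      · obtain ⟨l', hl, h⟩ := Finset.mem_image.1 hj
        rw [← Sum.inr_injective h]
        exact (hAt l' hl).1
  rw [Finset.card_union_of_disjoint hd2, Finset.card_union_of_disjoint hd1, hS1, hS2] at hcard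
  -- the relations
  by_contra hcon
  push Not at hcon
  have hU : (Ki ∪ At).card < Module.finrank E.O Λ := by
    have := Finset.card_union_le Ki At
    omega
  obtain ⟨α, hαΛ, hα0, hαU⟩ := exists_relO Λ (Ki ∪ At) hU
  obtain ⟨t, ht, hrel⟩ := hΛ α hαΛ
  have hzz : C ^ e ≠ 0 := pow_ne_zero _ hC0
  have hvA : v ((C ^ e) ^ 4 * eval y A) ≤ 1 := by
    rw [← pow_mul, mul_comm e 4]
    exact eval_le hn1 hny hA hAd
  have hvB : v ((C ^ e) ^ 6 * eval y B) ≤ 1 := by
    rw [← pow_mul, mul_comm e 6]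
    exact eval_le hn1 hny hB hBd
  obtain ⟨π, hπ⟩ := IsAlgClosed.exists_pow_nat_eq (p : ℂ) hR0
  have hρR : v (p : ℂ) = v π ^ R := by rw [← hπ, map_pow]
  have hρ0 : 0 < v π := by
    refine zero_lt_iff.2 fun h0 => ?_
    rw [h0, zero_pow hR0.ne'] at hρR
    exact hpv0 hρR
  refine rel_placeE hp hVp harch hzz hvA hvB E hρR hR0 hρ0 P (Ki ∪ At)ᶜ
    (fun l => R + (l : ℕ) + 1) ?_ ?_ ?_ α hα0 ?_ ht hrel
  · intro l hl
    rw [Finset.mem_compl, Finset.mem_union, not_or] at hl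
    have h1 := (hty l hl.1 hl.2).2
    rw [hρR] at h1
    rw [xx_scl, ← pow_mul]
    exact root_pow hR0 h1
  · intro l _
    have := l.2
    omega
  · intro l _ l' _ hne' hmod
    apply hne'
    apply Fin.ext
    have h1 := l.2
    have h2 := l'.2
    rcases le_total (l : ℕ) (l' : ℕ) with hle | hle
    · have h7 := (Nat.modEq_iff_dvd' (by omega)).1 hmod
      by_contra hne''
      have h8 := Nat.le_of_dvd (by omega) h7
      omega
    · have h7 := (Nat.modEq_iff_dvd' (by omega)).1 hmod.symm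
      by_contra hne''
      have h8 := Nat.le_of_dvd (by omega) h7
      omega
  · intro l hl
    rw [Finset.mem_compl, not_not] at hl
    exact hαU l hl

end Pool.Agent.Y645.PK
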